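import Mathlib
import Pool.Agent.H72.Lib.S9f66.W5h55.SH.A4
set_option autoImplicit false

/-! Pairs of polynomials on two Euclidean spaces: harmonic decomposition. -/

open MeasureTheory Set Metric
open scoped ENNReal RealInnerProductSpace

namespace Pool.Agent.H72.Co

open MvPolynomial (pderiv)
open Pool.Agent.H789R2.FR (E sg T sg_finite)
open Pool.Agent.W5h55.SH

/-- the Laplacian of a polynomial -/
noncomputable def lap {n : ℕ} (q : MvPolynomial (Fin n) ℂ) : MvPolynomial (Fin n) ℂ :=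
  ∑ i, pderiv i (pderiv i q)

/-- `∑ x_i^2` -/
noncomputable def rho (n : ℕ) : MvPolynomial (Fin n) ℂ := ∑ i, MvPolynomial.X i ^ 2

/-- the polynomial with conjugate coefficients -/
noncomputable def cj {n : ℕ} (q : MvPolynomial (Fin n) ℂ) : MvPolynomial (Fin n) ℂ :=
  MvPolynomial.map (starRingEnd ℂ) q

variable {n l : ℕ}

theorem lap_add (p q : MvPolynomial (Fin n) ℂ) : lap (p + q) = lap p + lap q := by
  unfold lap
  simp [Finset.sum_add_distrib]

theorem lap_C (c : ℂ) (q : MvPolynomial (Fin n) ℂ) :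
    lap (MvPolynomial.C c * q) = MvPolynomial.C c * lap q := by
  unfold lap
  simp [Finset.mul_sum]

theorem lap_smul (c : ℂ) (q : MvPolynomial (Fin n) ℂ) : lap (c • q) = c • lap q := by
  rw [MvPolynomial.smul_eq_C_mul, lap_C, MvPolynomial.smul_eq_C_mul]

theorem lap_zero : lap (0 : MvPolynomial (Fin n) ℂ) = 0 := by
  unfold lap
  simp

theorem lap_sub (p q : MvPolynomial (Fin n) ℂ) : lap (p - q) = lap p - lap q := by
  unfold lap
  simp [Finset.sum_sub_distrib]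

theorem rho_hom (n : ℕ) : (rho n).IsHomogeneous 2 := by
  unfold rho
  refine MvPolynomial.IsHomogeneous.sum _ _ _ fun i _ => ?_
  have := (MvPolynomial.isHomogeneous_X ℂ i).pow 2
  simpa using this

theorem lap_hom {k : ℕ} {q : MvPolynomial (Fin n) ℂ} (hq : q.IsHomogeneous (k + 2)) :
    (lap q).IsHomogeneous k := by
  unfold lap
  refine MvPolynomial.IsHomogeneous.sum _ _ _ fun i _ => ?_
  have := (hq.pderiv (i := i)).pderiv (i := i)
  simpa using this

theorem lap_low {k : ℕ} (hk : k < 2) {q : MvPolynomial (Fin n) ℂ} (hq : q.IsHomogeneous k) :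
    lap q = 0 := by
  unfold lap
  refine Finset.sum_eq_zero fun i _ => ?_
  have h1 : (pderiv i q).IsHomogeneous 0 := by
    have := hq.pderiv (i := i)
    have h2 : k - 1 = 0 := by omega
    rwa [h2] at this
  rw [MvPolynomial.totalDegree_eq_zero_iff_eq_C.1 (Nat.le_zero.1 h1.totalDegree_le)]
  simp

theorem pd_rho (i : Fin n) : pderiv i (rho n) = 2 * MvPolynomial.X i := by
  unfold rho
  rw [map_sum, Finset.sum_eq_single i]
  · rw [Derivation.leibniz_pow, MvPolynomial.pderiv_X_self]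
    simp
  · intro j _ hj
    rw [Derivation.leibniz_pow, MvPolynomial.pderiv_X_of_ne hj]
    simp
  · simp

/-- commutation of the Laplacian with `|x|^2` -/
theorem lap_rho {k : ℕ} {q : MvPolynomial (Fin n) ℂ} (hq : q.IsHomogeneous k) :
    lap (rho n * q) = rho n * lap q + MvPolynomial.C ((2 * n + 4 * k : ℕ) : ℂ) * q := by
  have h1 : ∀ i, pderiv i (pderiv i (rho n * q)) =
      rho n * pderiv i (pderiv i q) + (2 * q + 4 * (MvPolynomial.X i * pderiv i q)) := by
    intro i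
    have h2 : pderiv i (2 : MvPolynomial (Fin n) ℂ) = 0 := by
      rw [show (2 : MvPolynomial (Fin n) ℂ) = ((2 : ℕ) : MvPolynomial (Fin n) ℂ) by norm_num]
      exact Derivation.map_natCast _ _
    simp only [Derivation.leibniz, pd_rho, MvPolynomial.pderiv_X_self, h2, smul_eq_mul, map_add]
    ring
  unfold lap
  rw [Finset.sum_congr rfl fun i _ => h1 i, Finset.sum_add_distrib, Finset.sum_add_distrib,
    ← Finset.mul_sum, ← Finset.mul_sum, ← Finset.mul_sum, hq.sum_X_mul_pderiv]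
  simp only [Finset.sum_const, Finset.card_univ, Fintype.card_fin, nsmul_eq_mul]
  push_cast
  simp only [map_add, map_mul, map_natCast, map_ofNat]
  ring

/-- A system of pairs of polynomials, in `n` and in `l` variables. -/
structure Sys {n l : ℕ} (d : ℕ) (Pi : MvPolynomial (Fin l) ℂ)
    (W : ℕ → Submodule ℂ (MvPolynomial (Fin n) ℂ × MvPolynomial (Fin l) ℂ)) : Prop where
  two : 2 ≤ l
  dim : n = l + 2 * d
  hPi : Pi.IsHomogeneous d
  Pi_ne : Pi ≠ 0
  Pi_real : cj Pi = Pi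
  Pi_harm : lap Pi = 0
  hom : ∀ k, ∀ a ∈ W k, a.1.IsHomogeneous k ∧ a.2.IsHomogeneous k
  one : (1, 1) ∈ W 0
  zero : ∀ a ∈ W 0, ∃ c : ℂ, a = (MvPolynomial.C c, MvPolynomial.C c)
  mul : ∀ j k a b, a ∈ W j → b ∈ W k → a * b ∈ W (j + k)
  rho : (rho n, rho l) ∈ W 2
  star : ∀ k, ∀ a ∈ W k, (cj a.1, cj a.2) ∈ W k
  lap : ∀ k, ∀ a ∈ W (k + 2), ∃ r, (lap a.1, r) ∈ W k ∧ lap (a.2 * Pi) = r * Pi
  low : ∀ k < 2, ∀ a ∈ W k, Co.lap (a.2 * Pi) = 0

variable {d : ℕ} {Pi : MvPolynomial (Fin l) ℂ}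
  {W : ℕ → Submodule ℂ (MvPolynomial (Fin n) ℂ × MvPolynomial (Fin l) ℂ)}

/-- solving `Δ (|x|² p) + c p = u` -/
theorem Sys.solve (hS : Sys d Pi W) : ∀ (k : ℕ) (c : ℕ) (a : MvPolynomial (Fin n) ℂ ×
    MvPolynomial (Fin l) ℂ), a ∈ W k → ∃ b ∈ W k,
      Co.lap (Co.rho n * b.1) + MvPolynomial.C (c : ℂ) * b.1 = a.1 ∧
      Co.lap (Co.rho l * (b.2 * Pi)) + MvPolynomial.C (c : ℂ) * (b.2 * Pi) = a.2 * Pi := by
  intro k
  induction k using Nat.strong_induction_on with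
  | _ k ih =>
    intro c a ha
    have hN : 2 * l + 4 * (k + d) = 2 * n + 4 * k := by
      have := hS.dim
      omega
    have hpos : 0 < 2 * n + 4 * k + c := by
      have h1 := hS.dim
      have h2 := hS.two
      omega
    set c' : ℕ := 2 * n + 4 * k + c with hc'
    have hc0 : (c' : ℂ) ≠ 0 := by exact_mod_cast hpos.ne'
    have hCC : MvPolynomial.C (c' : ℂ) * MvPolynomial.C ((c' : ℂ)⁻¹) =
        (1 : MvPolynomial (Fin n) ℂ) := by
      rw [← MvPolynomial.C_mul, mul_inv_cancel₀ hc0, MvPolynomial.C_1]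
    have hCC2 : MvPolynomial.C (c' : ℂ) * MvPolynomial.C ((c' : ℂ)⁻¹) =
        (1 : MvPolynomial (Fin l) ℂ) := by
      rw [← MvPolynomial.C_mul, mul_inv_cancel₀ hc0, MvPolynomial.C_1]
    have hsplit : ∀ {m : ℕ}, (MvPolynomial.C (c' : ℂ) : MvPolynomial (Fin m) ℂ) =
        MvPolynomial.C ((2 * n + 4 * k : ℕ) : ℂ) + MvPolynomial.C (c : ℂ) := by
      intro m
      rw [hc', ← map_add]
      push_cast
      rfl
    rcases Nat.lt_or_ge k 2 with hk | hk
    · -- low degrees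
      refine ⟨((c' : ℂ)⁻¹) • a, (W k).smul_mem _ ha, ?_, ?_⟩
      · obtain ⟨h1, h2⟩ := hS.hom k a ha
        rw [Prod.smul_fst, MvPolynomial.smul_eq_C_mul]
        rw [show Co.rho n * (MvPolynomial.C ((c' : ℂ)⁻¹) * a.1) =
          MvPolynomial.C ((c' : ℂ)⁻¹) * (Co.rho n * a.1) by ring, lap_C, lap_rho h1,
          lap_low hk h1]
        have := hsplit (m := n)
        linear_combination a.1 * hCC - (MvPolynomial.C ((c' : ℂ)⁻¹) * a.1) * this
      · obtain ⟨h1, h2⟩ := hS.hom k a ha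
        have h3 := h2.mul hS.hPi
        have h4 := hS.low k hk a ha
        rw [Prod.smul_snd, MvPolynomial.smul_eq_C_mul]
        rw [show Co.rho l * (MvPolynomial.C ((c' : ℂ)⁻¹) * a.2 * Pi) =
          MvPolynomial.C ((c' : ℂ)⁻¹) * (Co.rho l * (a.2 * Pi)) by ring, lap_C, lap_rho h3,
          h4, hN]
        have := hsplit (m := l)
        linear_combination (a.2 * Pi) * hCC2 - (MvPolynomial.C ((c' : ℂ)⁻¹) * (a.2 * Pi)) * this
    · obtain ⟨j, rfl⟩ : ∃ j, k = j + 2 := ⟨k - 2, by omega⟩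
      obtain ⟨r, hr1, hr2⟩ := hS.lap j a ha
      obtain ⟨b, hb, hb1, hb2⟩ := ih j (by omega) c' _ hr1
      -- the solution
      have hmb : (Co.rho n, Co.rho l) * b ∈ W (j + 2) := by
        have := hS.mul 2 j _ _ hS.rho hb
        rwa [add_comm 2 j] at this
      refine ⟨((c' : ℂ)⁻¹) • (a - (Co.rho n, Co.rho l) * b), (W (j + 2)).smul_mem _
        ((W (j + 2)).sub_mem ha hmb), ?_, ?_⟩
      · obtain ⟨h1, h2⟩ := hS.hom _ a ha
        obtain ⟨h3, h4⟩ := hS.hom _ _ hmb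
        obtain ⟨h5, h6⟩ := hS.hom _ _ hb
        rw [Prod.smul_fst, MvPolynomial.smul_eq_C_mul, Prod.fst_sub, Prod.fst_mul]
        simp only at hb1 hb2 ⊢
        rw [Prod.fst_mul] at h3
        simp only at h3
        rw [show Co.rho n * (MvPolynomial.C ((c' : ℂ)⁻¹) * (a.1 - Co.rho n * b.1)) =
          MvPolynomial.C ((c' : ℂ)⁻¹) * (Co.rho n * (a.1 - Co.rho n * b.1)) by ring, lap_C,
          lap_rho (h1.sub h3), lap_sub, ← hb1]
        have := hsplit (m := n)
        linear_combination (a.1) * hCC - (MvPolynomial.C ((c' : ℂ)⁻¹) * (a.1 - Co.rho n * b.1)) * this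
      · obtain ⟨h1, h2⟩ := hS.hom _ a ha
        obtain ⟨h3, h4⟩ := hS.hom _ _ hmb
        obtain ⟨h5, h6⟩ := hS.hom _ _ hb
        rw [Prod.smul_snd, MvPolynomial.smul_eq_C_mul, Prod.snd_sub, Prod.snd_mul]
        simp only at hb1 hb2 ⊢
        rw [Prod.snd_mul] at h4
        simp only at h4
        have h7 := (h2.sub h4).mul hS.hPi
        rw [show Co.rho l * (MvPolynomial.C ((c' : ℂ)⁻¹) * (a.2 - Co.rho l * b.2) * Pi) =
          MvPolynomial.C ((c' : ℂ)⁻¹) * (Co.rho l * ((a.2 - Co.rho l * b.2) * Pi)) by ring, lap_C,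
          lap_rho h7, show (a.2 - Co.rho l * b.2) * Pi = a.2 * Pi - Co.rho l * (b.2 * Pi) by ring,
          lap_sub, hr2, ← hb2, hN]
        have := hsplit (m := l)
        linear_combination (a.2 * Pi) * hCC2 -
          (MvPolynomial.C ((c' : ℂ)⁻¹) * (a.2 * Pi - Co.rho l * (b.2 * Pi))) * this

/-- a pair is harmonic -/
def HP (Pi : MvPolynomial (Fin l) ℂ) (a : MvPolynomial (Fin n) ℂ × MvPolynomial (Fin l) ℂ) :
    Prop := lap a.1 = 0 ∧ lap (a.2 * Pi) = 0

/-- **harmonic decomposition of pairs** -/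
theorem Sys.dec (hS : Sys d Pi W) (k : ℕ) (a : MvPolynomial (Fin n) ℂ × MvPolynomial (Fin l) ℂ)
    (ha : a ∈ W k) : HP Pi a ∨ ∃ j h b, k = j + 2 ∧ h ∈ W k ∧ HP Pi h ∧ b ∈ W j ∧
      a = h + (Co.rho n, Co.rho l) * b := by
  rcases Nat.lt_or_ge k 2 with hk | hk
  · left
    exact ⟨lap_low hk (hS.hom k a ha).1, hS.low k hk a ha⟩
  · right
    obtain ⟨j, rfl⟩ : ∃ j, k = j + 2 := ⟨k - 2, by omega⟩
    obtain ⟨r, hr1, hr2⟩ := hS.lap j a ha
    obtain ⟨b, hb, hb1, hb2⟩ := hS.solve j 0 _ hr1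
    have hmb : (Co.rho n, Co.rho l) * b ∈ W (j + 2) := by
      have := hS.mul 2 j _ _ hS.rho hb
      rwa [add_comm 2 j] at this
    refine ⟨j, a - (Co.rho n, Co.rho l) * b, b, rfl, (W (j + 2)).sub_mem ha hmb, ⟨?_, ?_⟩, hb,
      by ring⟩
    · rw [Prod.fst_sub, Prod.fst_mul]
      simp only at hb1 ⊢
      rw [lap_sub, ← hb1]
      simp
    · rw [Prod.snd_sub, Prod.snd_mul]
      simp only at hb2 ⊢
      rw [sub_mul, lap_sub, hr2, ← hb2, mul_assoc]
      simp

end Pool.Agent.H72.Co
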