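import Mathlib
import Pool.Agent.H72.Co.C1
set_option autoImplicit false

/-! Orthogonality, the transforms of a pair, the law of a pair. -/

open MeasureTheory Set Metric
open scoped ENNReal RealInnerProductSpace

namespace Pool.Agent.H72.Co

open MvPolynomial (pderiv)
open Pool.Agent.H789R2.FR (E sg T sg_finite sg_ae)
open Pool.Agent.W5h55.SH

variable {n l d : ℕ}

theorem ev_cj (q : MvPolynomial (Fin n) ℂ) (y : E n) : ev (cj q) y = starRingEnd ℂ (ev q y) := by
  unfold ev cj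
  rw [MvPolynomial.eval_map, MvPolynomial.eval₂_eq', MvPolynomial.eval_eq', map_sum]
  refine Finset.sum_congr rfl fun m _ => ?_
  rw [map_mul, map_prod]
  congr 1
  refine Finset.prod_congr rfl fun i _ => ?_
  rw [map_pow, Complex.conj_ofReal]

theorem green (hn : 2 ≤ n) {a b : ℕ} {s t : MvPolynomial (Fin n) ℂ} (hs : s.IsHomogeneous a)
    (ht : t.IsHomogeneous b) (hh : lap s = 0) :
    ((a : ℂ) + b + n - 2) * a * Sq (s * t) = Sq (∑ i, pderiv i s * pderiv i t) := by
  have hn1 : 1 ≤ n := by omega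
  rcases Nat.eq_zero_or_pos a with ha | ha
  · subst ha
    have h0 : ∀ i, pderiv i s = 0 := by
      intro i
      rw [MvPolynomial.totalDegree_eq_zero_iff_eq_C.1 (Nat.le_zero.1 hs.totalDegree_le)]
      simp
    have h1 : ∑ i, pderiv i s * pderiv i t = 0 := Finset.sum_eq_zero fun i _ => by rw [h0 i, zero_mul]
    rw [h1, Sq_zero]
    simp
  · have h1 : ∀ i, ((a : ℂ) + b + n - 2) * Sq (MvPolynomial.X i * (pderiv i s * t)) =
        Sq (pderiv i (pderiv i s) * t) + Sq (pderiv i s * pderiv i t) := by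
      intro i
      have h2 := (hs.pderiv (i := i)).mul ht
      have h3 := Sq_X hn1 (a - 1 + b) _ h2 i
      rw [Derivation.leibniz, smul_eq_mul, smul_eq_mul, Sq_add hn1, mul_comm t] at h3
      rw [add_comm (Sq (pderiv i (pderiv i s) * t)), ← h3]
      congr 1
      push_cast [Nat.cast_sub (show 1 ≤ a from ha)]
      ring
    have h4 : ∑ i, MvPolynomial.X i * (pderiv i s * t) = MvPolynomial.C (a : ℂ) * (s * t) := by
      have h5 := hs.sum_X_mul_pderiv
      rw [nsmul_eq_mul] at h5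
      calc ∑ i, MvPolynomial.X i * (pderiv i s * t)
          = (∑ i, MvPolynomial.X i * pderiv i s) * t := by
            rw [Finset.sum_mul]
            exact Finset.sum_congr rfl fun i _ => by ring
        _ = _ := by
            rw [h5]
            simp
            ring
    have h6 : ((a : ℂ) + b + n - 2) * Sq (MvPolynomial.C (a : ℂ) * (s * t)) =
        Sq (lap s * t) + Sq (∑ i, pderiv i s * pderiv i t) := by
      rw [← h4, Sq_sum hn1, Finset.mul_sum, Finset.sum_congr rfl fun i _ => h1 i,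
        Finset.sum_add_distrib, ← Sq_sum hn1, ← Sq_sum hn1]
      congr 2
      unfold lap
      rw [Finset.sum_mul]
    rw [hh, zero_mul, Sq_zero, zero_add, Sq_C] at h6
    rw [← h6]
    ring

/-- harmonic polynomials of different degrees are orthogonal -/
theorem orth (hn : 2 ≤ n) {a b : ℕ} {s t : MvPolynomial (Fin n) ℂ} (hs : s.IsHomogeneous a)
    (ht : t.IsHomogeneous b) (hhs : lap s = 0) (hht : lap t = 0) (hab : b < a) :
    Sq (s * t) = 0 := by
  have h1 := green hn hs ht hhs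
  have h2 := green hn ht hs hht
  have h3 : ∑ i, pderiv i t * pderiv i s = ∑ i, pderiv i s * pderiv i t :=
    Finset.sum_congr rfl fun i _ => mul_comm _ _
  rw [h3, ← h1, mul_comm t s] at h2
  have h4 : ((a : ℂ) + b + n - 2) * ((a : ℂ) - b) * Sq (s * t) = 0 := by
    linear_combination -h2
  have h5 : ((a : ℂ) + b + n - 2) ≠ 0 := by
    have h6 : (a : ℂ) + b + n - 2 = ((a + b + n - 2 : ℕ) : ℂ) := by
      rw [Nat.cast_sub (by omega)]
      push_cast
      ring
    rw [h6]
    exact_mod_cast (by omega : a + b + n - 2 ≠ 0)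
  have h7 : ((a : ℂ) - b) ≠ 0 := by
    rw [sub_ne_zero]
    exact_mod_cast hab.ne'
  rcases mul_eq_zero.1 h4 with h | h
  · rcases mul_eq_zero.1 h with h | h
    · exact absurd h h5
    · exact absurd h h7
  · exact h

theorem T_congr {f g : E n → ℂ} (h : ∀ w, ‖w‖ = 1 → f w = g w) (x : E n) : T f x = T g x := by
  unfold T
  refine integral_congr_ae ?_
  filter_upwards [sg_ae n] with w hw
  rw [h w hw]

theorem ev_bdd (q : MvPolynomial (Fin n) ℂ) : ∃ B : ℝ, 0 ≤ B ∧ ∀ y : E n, ‖y‖ = 1 → ‖ev q y‖ ≤ B := by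
  obtain ⟨C, c, hC, hc', h⟩ := ev_bound q
  refine ⟨C * Real.exp c, by positivity, fun y hy => ?_⟩
  have := h y
  rwa [hy, mul_one] at this

theorem ker_int {f : E n → ℂ} (hf : Measurable f) (B : ℝ) (hB : ∀ y, ‖y‖ = 1 → ‖f y‖ ≤ B) (x : E n) :
    Integrable (fun w => Complex.exp (-((⟪x, w⟫ : ℝ) : ℂ) * Complex.I) * f w) (sg n) := by
  have := sg_finite n
  refine Integrable.of_bound (C := B) ?_ ?_
  · have h1 : Measurable fun w : E n => (⟪x, w⟫ : ℝ) := by fun_prop
    exact ((Complex.measurable_exp.comp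
      ((Complex.measurable_ofReal.comp h1).neg.mul_const Complex.I)).mul hf).aestronglyMeasurable
  · filter_upwards [sg_ae n] with w hw
    rw [norm_mul, show -((⟪x, w⟫ : ℝ) : ℂ) * Complex.I = ((-⟪x, w⟫ : ℝ) : ℂ) * Complex.I by
      push_cast; ring, Complex.norm_exp_ofReal_mul_I, one_mul]
    exact hB w hw

theorem ev_ker_int (q : MvPolynomial (Fin n) ℂ) (x : E n) :
    Integrable (fun w => Complex.exp (-((⟪x, w⟫ : ℝ) : ℂ) * Complex.I) * ev q w) (sg n) := by
  obtain ⟨B, _, hB⟩ := ev_bdd q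
  exact ker_int (ev_cont q).measurable B hB x

theorem T_ev_add (p q : MvPolynomial (Fin n) ℂ) (x : E n) :
    T (ev (p + q)) x = T (ev p) x + T (ev q) x := by
  unfold T
  rw [← integral_add (ev_ker_int p x) (ev_ker_int q x)]
  refine integral_congr_ae (Filter.Eventually.of_forall fun w => ?_)
  simp only [ev_add]
  ring

theorem T_ev_smul (c : ℂ) (q : MvPolynomial (Fin n) ℂ) (x : E n) :
    T (ev (c • q)) x = c * T (ev q) x := by
  unfold T
  rw [← integral_const_mul]
  refine integral_congr_ae (Filter.Eventually.of_forall fun w => ?_)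
  simp only [MvPolynomial.smul_eq_C_mul, ev_mul, ev_C]
  ring

theorem ev_rho (y : E n) : ev (rho n) y = ((‖y‖ ^ 2 : ℝ) : ℂ) := by
  unfold rho
  rw [ev_sum, EuclideanSpace.norm_sq_eq]
  push_cast
  refine Finset.sum_congr rfl fun i _ => ?_
  rw [ev_pow, ev_X, Real.norm_eq_abs, ← Complex.ofReal_pow, ← Complex.ofReal_pow, sq_abs]

/-- the ratio of the constants -/
noncomputable def Kc (n l d : ℕ) : ℝ :=
  ar l / (ar n * ∏ i ∈ Finset.range d, ((l : ℝ) + 2 * i))

theorem ar_pos (hn : 1 ≤ n) : 0 < ar n := by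
  unfold ar
  have : Nonempty (Fin n) := ⟨⟨0, hn⟩⟩
  have : Nontrivial (E n) := inferInstance
  rw [measureReal_def]
  refine ENNReal.toReal_pos ?_ (measure_ne_top _ _)
  rw [Ne, Measure.measure_univ_eq_zero]
  exact Measure.toSphere_ne_zero _

theorem Kc_pos (hl : 2 ≤ l) (hn : 1 ≤ n) : 0 < Kc n l d := by
  unfold Kc
  have h1 := ar_pos (n := l) (by omega)
  have h2 := ar_pos hn
  have h3 : (2 : ℝ) ≤ l := by exact_mod_cast hl
  have h4 : 0 < ∏ i ∈ Finset.range d, ((l : ℝ) + 2 * i) := Finset.prod_pos fun i _ => by positivity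
  positivity

theorem cc_ratio (hl : 2 ≤ l) (hn : n = l + 2 * d) (k : ℕ) : cc l (k + d) = Kc n l d * cc n k := by
  unfold cc Kc
  have h1 := ar_pos (n := l) (by omega)
  have h2 := ar_pos (n := n) (by omega)
  have h3 : (2 : ℝ) ≤ l := by exact_mod_cast hl
  have h4 : 0 < ∏ i ∈ Finset.range d, ((l : ℝ) + 2 * i) := Finset.prod_pos fun i _ => by positivity
  have h5 : (2 : ℝ) ≤ n := by
    rw [hn]
    push_cast
    have : (0 : ℝ) ≤ d := Nat.cast_nonneg d
    linarith
  have h6 : 0 < ∏ i ∈ Finset.range k, ((n : ℝ) + 2 * i) := Finset.prod_pos fun i _ => by positivity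
  have h7 : ∏ i ∈ Finset.range (k + d), ((l : ℝ) + 2 * i) =
      (∏ i ∈ Finset.range d, ((l : ℝ) + 2 * i)) * ∏ i ∈ Finset.range k, ((n : ℝ) + 2 * i) := by
    rw [add_comm k d, Finset.prod_range_add]
    congr 1
    refine Finset.prod_congr rfl fun i _ => ?_
    rw [hn]
    push_cast
    ring
  rw [h7]
  field_simp

variable {Pi : MvPolynomial (Fin l) ℂ}
  {W : ℕ → Submodule ℂ (MvPolynomial (Fin n) ℂ × MvPolynomial (Fin l) ℂ)}

/-- the transforms of a pair, along the spheres -/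
def Good (d : ℕ) (Pi : MvPolynomial (Fin l) ℂ)
    (W : ℕ → Submodule ℂ (MvPolynomial (Fin n) ℂ × MvPolynomial (Fin l) ℂ))
    (a : MvPolynomial (Fin n) ℂ × MvPolynomial (Fin l) ℂ) : Prop :=
  ∀ t : ℝ, 0 ≤ t → ∃ b ∈ ⨆ k, W k, (∀ w : E n, ‖w‖ = 1 → T (ev a.1) (t • w) = ev b.1 w) ∧
    (∀ w : E l, ‖w‖ = 1 → T (ev (a.2 * Pi)) (t • w) =
      (-Complex.I) ^ d * ((Kc n l d : ℝ) : ℂ) * (ev b.2 w * ev Pi (t • w)))

theorem good_add {a b : MvPolynomial (Fin n) ℂ × MvPolynomial (Fin l) ℂ} (ha : Good d Pi W a)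
    (hb : Good d Pi W b) : Good d Pi W (a + b) := by
  intro t ht
  obtain ⟨x, hx, hx1, hx2⟩ := ha t ht
  obtain ⟨y, hy, hy1, hy2⟩ := hb t ht
  refine ⟨x + y, Submodule.add_mem _ hx hy, fun w hw => ?_, fun w hw => ?_⟩
  · rw [Prod.fst_add, T_ev_add, hx1 w hw, hy1 w hw, Prod.fst_add, ev_add]
  · rw [Prod.snd_add, add_mul, T_ev_add, hx2 w hw, hy2 w hw, Prod.snd_add, ev_add]
    ring

theorem good_rho {a : MvPolynomial (Fin n) ℂ × MvPolynomial (Fin l) ℂ} (ha : Good d Pi W a) :
    Good d Pi W ((rho n, rho l) * a) := by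
  intro t ht
  obtain ⟨x, hx, hx1, hx2⟩ := ha t ht
  refine ⟨x, hx, fun w hw => ?_, fun w hw => ?_⟩
  · rw [← hx1 w hw]
    apply T_congr
    intro y hy
    rw [Prod.fst_mul, ev_mul, ev_rho, hy]
    simp
  · rw [← hx2 w hw]
    apply T_congr
    intro y hy
    rw [Prod.snd_mul, ev_mul, ev_mul, ev_mul, ev_rho, hy]
    simp

theorem Sys.good_harm (hS : Sys d Pi W) (k : ℕ) (a : MvPolynomial (Fin n) ℂ ×
    MvPolynomial (Fin l) ℂ) (ha : a ∈ W k) (hh : HP Pi a) : Good d Pi W a := by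
  intro t ht
  obtain ⟨h1, h2⟩ := hS.hom k a ha
  have hn : 2 ≤ n := by
    have := hS.two
    have := hS.dim
    omega
  refine ⟨((-Complex.I) ^ k * ((cc n k * phi (2 * k + n) t : ℝ) : ℂ) * ((t ^ k : ℝ) : ℂ)) • a,
    Submodule.smul_mem _ _ (Submodule.mem_iSup_of_mem k ha), fun w hw => ?_, fun w hw => ?_⟩
  · rw [T_harm hn k a.1 h1 hh.1, norm_smul, hw, mul_one, Real.norm_of_nonneg ht,
      ev_smul k a.1 h1, Prod.smul_fst, MvPolynomial.smul_eq_C_mul, ev_mul, ev_C]
    ring
  · rw [T_harm hS.two (k + d) _ (h2.mul hS.hPi) hh.2, norm_smul, hw, mul_one,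
      Real.norm_of_nonneg ht, cc_ratio hS.two hS.dim k,
      show 2 * (k + d) + l = 2 * k + n by have := hS.dim; omega, ev_mul, ev_smul k a.2 h2,
      Prod.smul_snd, MvPolynomial.smul_eq_C_mul, ev_mul, ev_C]
    push_cast
    ring

theorem Sys.good_W (hS : Sys d Pi W) : ∀ (k : ℕ) (a : MvPolynomial (Fin n) ℂ ×
    MvPolynomial (Fin l) ℂ), a ∈ W k → Good d Pi W a := by
  intro k
  induction k using Nat.strong_induction_on with
  | _ k ih =>
    intro a ha
    rcases hS.dec k a ha with h | ⟨j, h, b, rfl, hh, hh2, hb, rfl⟩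
    · exact hS.good_harm k a ha h
    · exact good_add (hS.good_harm _ h hh hh2) (good_rho (ih j (by omega) b hb))

theorem Sys.good (hS : Sys d Pi W) (a : MvPolynomial (Fin n) ℂ × MvPolynomial (Fin l) ℂ)
    (ha : a ∈ ⨆ k, W k) : Good d Pi W a := by
  refine Submodule.iSup_induction W (motive := fun a => Good d Pi W a) ha
    (fun k x hx => hS.good_W k x hx) ?_ (fun x y hx hy => good_add hx hy)
  exact hS.good_W 0 0 (Submodule.zero_mem _)

theorem Sys.mulV (hS : Sys d Pi W) {a b : MvPolynomial (Fin n) ℂ × MvPolynomial (Fin l) ℂ}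
    (ha : a ∈ ⨆ k, W k) (hb : b ∈ ⨆ k, W k) : a * b ∈ ⨆ k, W k := by
  refine Submodule.iSup_induction W (motive := fun a => a * b ∈ ⨆ k, W k) ha
    (fun k x hx => ?_) (by simp) (fun x y hx hy => ?_)
  · refine Submodule.iSup_induction W (motive := fun b => x * b ∈ ⨆ k, W k) hb
      (fun j y hy => ?_) (by simp) (fun y z hy hz => ?_)
    · exact Submodule.mem_iSup_of_mem (k + j) (hS.mul k j x y hx hy)
    · rw [mul_add]
      exact Submodule.add_mem _ hy hz
  · rw [add_mul]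
    exact Submodule.add_mem _ hx hy

theorem cj_add (p q : MvPolynomial (Fin n) ℂ) : cj (p + q) = cj p + cj q := by
  unfold cj
  rw [map_add]

theorem Sys.starV (hS : Sys d Pi W) {a : MvPolynomial (Fin n) ℂ × MvPolynomial (Fin l) ℂ}
    (ha : a ∈ ⨆ k, W k) : (cj a.1, cj a.2) ∈ ⨆ k, W k := by
  refine Submodule.iSup_induction W (motive := fun a => (cj a.1, cj a.2) ∈ ⨆ k, W k) ha
    (fun k x hx => Submodule.mem_iSup_of_mem k (hS.star k x hx)) ?_ (fun x y hx hy => ?_)
  · have h0 : ((cj (0 : MvPolynomial (Fin n) ℂ), cj (0 : MvPolynomial (Fin l) ℂ)) :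
        MvPolynomial (Fin n) ℂ × MvPolynomial (Fin l) ℂ) = 0 := by
      simp [cj]
    rw [Prod.fst_zero, Prod.snd_zero, h0]
    exact Submodule.zero_mem _
  · rw [Prod.fst_add, Prod.snd_add, cj_add, cj_add]
    exact Submodule.add_mem _ hx hy

theorem Sys.oneV (hS : Sys d Pi W) :
    (1 : MvPolynomial (Fin n) ℂ × MvPolynomial (Fin l) ℂ) ∈ ⨆ k, W k :=
  Submodule.mem_iSup_of_mem 0 hS.one

/-- `∫ |Π|²` over the small sphere, divided by the area of the large one -/
noncomputable def c1 (n : ℕ) (Pi : MvPolynomial (Fin l) ℂ) : ℂ := Sq (Pi * Pi) / ((ar n : ℝ) : ℂ)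

/-- the law of a pair -/
def Law (Pi : MvPolynomial (Fin l) ℂ) (a : MvPolynomial (Fin n) ℂ × MvPolynomial (Fin l) ℂ) :
    Prop := c1 n Pi * Sq a.1 = Sq (a.2 * Pi * Pi)

theorem law_add (hn : 1 ≤ n) (hl : 1 ≤ l) {a b : MvPolynomial (Fin n) ℂ × MvPolynomial (Fin l) ℂ}
    (ha : Law Pi a) (hb : Law Pi b) : Law Pi (a + b) := by
  unfold Law at *
  rw [Prod.fst_add, Prod.snd_add, add_mul, add_mul, Sq_add hn, Sq_add hl, mul_add, ha, hb]

theorem Sq_congr {p q : MvPolynomial (Fin n) ℂ} (h : ∀ w : E n, ‖w‖ = 1 → ev p w = ev q w) :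
    Sq p = Sq q := by
  unfold Sq
  refine integral_congr_ae (Filter.Eventually.of_forall fun w => ?_)
  exact h _ (norm_eq_of_mem_sphere w)

theorem law_rho {a : MvPolynomial (Fin n) ℂ × MvPolynomial (Fin l) ℂ} (ha : Law Pi a) :
    Law Pi ((rho n, rho l) * a) := by
  unfold Law at *
  have h1 : Sq ((rho n, rho l) * a).1 = Sq a.1 := by
    apply Sq_congr
    intro w hw
    rw [Prod.fst_mul, ev_mul, ev_rho, hw]
    simp
  have h2 : Sq (((rho n, rho l) * a).2 * Pi * Pi) = Sq (a.2 * Pi * Pi) := by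
    apply Sq_congr
    intro w hw
    rw [Prod.snd_mul, ev_mul, ev_mul, ev_mul, ev_mul, ev_mul, ev_rho, hw]
    simp
  rw [h1, h2, ha]

theorem Sys.law_W (hS : Sys d Pi W) : ∀ (k : ℕ) (a : MvPolynomial (Fin n) ℂ ×
    MvPolynomial (Fin l) ℂ), a ∈ W k → Law Pi a := by
  have hn : 2 ≤ n := by
    have := hS.two
    have := hS.dim
    omega
  have hl := hS.two
  intro k
  induction k using Nat.strong_induction_on with
  | _ k ih =>
    have harm : ∀ a ∈ W k, HP Pi a → Law Pi a := by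
      intro a ha hh
      obtain ⟨h1, h2⟩ := hS.hom k a ha
      rcases Nat.eq_zero_or_pos k with hk | hk
      · subst hk
        obtain ⟨c, rfl⟩ := hS.zero a ha
        unfold Law c1
        have e1 : Sq (MvPolynomial.C c : MvPolynomial (Fin n) ℂ) = c * ((ar n : ℝ) : ℂ) := by
          unfold Sq ar
          simp
          ring
        have e2 : Sq (MvPolynomial.C c * Pi * Pi) = c * Sq (Pi * Pi) := by
          rw [mul_assoc, Sq_C]
        simp only
        rw [e1, e2]
        have h3 : ((ar n : ℝ) : ℂ) ≠ 0 := by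
          exact_mod_cast (ar_pos (n := n) (by omega)).ne'
        field_simp
      · unfold Law
        rw [Sq_low hn k hk a.1 h1 hh.1, orth hl (h2.mul hS.hPi) hS.hPi hh.2 hS.Pi_harm (by omega),
          mul_zero]
    intro a ha
    rcases hS.dec k a ha with h | ⟨j, h, b, rfl, hh, hh2, hb, rfl⟩
    · exact harm a ha h
    · exact law_add (by omega) (by omega) (harm h hh hh2) (law_rho (ih j (by omega) b hb))

theorem Sys.law (hS : Sys d Pi W) (a : MvPolynomial (Fin n) ℂ × MvPolynomial (Fin l) ℂ)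
    (ha : a ∈ ⨆ k, W k) : Law Pi a := by
  have hn : 1 ≤ n := by
    have := hS.two
    have := hS.dim
    omega
  have hl := hS.two
  refine Submodule.iSup_induction W (motive := fun a => Law Pi a) ha
    (fun k x hx => hS.law_W k x hx) ?_ (fun x y hx hy => law_add hn (by omega) hx hy)
  exact hS.law_W 0 0 (Submodule.zero_mem _)

end Pool.Agent.H72.Co
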