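import Mathlib
import Pool.Agent.H72.Co.C2
set_option autoImplicit false

/-! The law of a pair for continuous functions, and the equality of weighted norms. -/

open MeasureTheory Set Metric
open scoped ENNReal RealInnerProductSpace

namespace Pool.Agent.H72.Co

open MvPolynomial (pderiv)
open Pool.Agent.H789R2.FR (E sg T sg_finite sg_ae polar)
open Pool.Agent.W5h55.SH

variable {n l d : ℕ}

theorem sg_int {G : Type*} [NormedAddCommGroup G] {f : E n → G} (hf : Continuous f) :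
    Integrable f (sg n) := by
  have := sg_finite n
  obtain ⟨C, hC⟩ := (isCompact_sphere (0 : E n) 1).exists_bound_of_continuousOn hf.continuousOn
  refine Integrable.of_bound (C := C) hf.aestronglyMeasurable ?_
  filter_upwards [sg_ae n] with w hw
  exact hC w (by simpa using hw)

theorem Sq_sg (q : MvPolynomial (Fin n) ℂ) : Sq q = ∫ w, ev q w ∂(sg n) := by
  unfold Sq sg
  rw [integral_map measurable_subtype_coe.aemeasurable (ev_cont q).aestronglyMeasurable]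

/-- a nonnegative continuous function with zero integral vanishes on the sphere -/
theorem sg_zero {f : E n → ℝ} (hf : Continuous f) (h0 : ∀ w, 0 ≤ f w)
    (hi : ∫ w, f w ∂(sg n) = 0) : ∀ w, ‖w‖ = 1 → f w = 0 := by
  have h1 : ∫ w : sphere (0 : E n) 1, f w ∂(volume : Measure (E n)).toSphere = 0 := by
    rw [← hi]
    unfold sg
    rw [integral_map measurable_subtype_coe.aemeasurable hf.aestronglyMeasurable]
  have hc : CompactSpace (sphere (0 : E n) 1) := isCompact_iff_compactSpace.mp (isCompact_sphere _ _)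
  have hf' : Continuous fun w : sphere (0 : E n) 1 => f w := hf.comp continuous_subtype_val
  have h2 : Integrable (fun w : sphere (0 : E n) 1 => f w) (volume : Measure (E n)).toSphere :=
    hf'.integrable_of_hasCompactSupport (HasCompactSupport.of_compactSpace _)
  have h3 := (integral_eq_zero_iff_of_nonneg (fun w => h0 _) h2).1 h1
  have h4 := (hf'.ae_eq_iff_eq _ continuous_const).1 h3
  intro w hw
  exact congrFun h4 ⟨w, by simpa using hw⟩

variable {Pi : MvPolynomial (Fin l) ℂ}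
  {W : ℕ → Submodule ℂ (MvPolynomial (Fin n) ℂ × MvPolynomial (Fin l) ℂ)}

theorem Sys.Pi_sq (hS : Sys d Pi W) (w : E l) : ev Pi w * ev Pi w = ((‖ev Pi w‖ ^ 2 : ℝ) : ℂ) := by
  have h1 := ev_cj Pi w
  rw [hS.Pi_real] at h1
  rw [← Complex.normSq_eq_norm_sq, Complex.normSq_eq_conj_mul_self, ← h1]

theorem ev_mul_cj (q : MvPolynomial (Fin n) ℂ) (w : E n) :
    ev (q * cj q) w = ((‖ev q w‖ ^ 2 : ℝ) : ℂ) := by
  rw [ev_mul, ev_cj, ← Complex.normSq_eq_norm_sq, Complex.normSq_eq_conj_mul_self, mul_comm]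

theorem Sys.aeval_mem (hS : Sys d Pi W) {a : MvPolynomial (Fin n) ℂ × MvPolynomial (Fin l) ℂ}
    (ha : a ∈ ⨆ k, W k) (Q : Polynomial ℝ) : ∃ b ∈ ⨆ k, W k,
      (∀ w, ev b.1 w = Polynomial.eval₂ (algebraMap ℝ ℂ) (ev a.1 w) Q) ∧
      (∀ w, ev b.2 w = Polynomial.eval₂ (algebraMap ℝ ℂ) (ev a.2 w) Q) := by
  induction Q using Polynomial.induction_on' with
  | add p q hp hq =>
    obtain ⟨x, hx, hx1, hx2⟩ := hp
    obtain ⟨y, hy, hy1, hy2⟩ := hq
    refine ⟨x + y, Submodule.add_mem _ hx hy, fun w => ?_, fun w => ?_⟩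
    · rw [Prod.fst_add, ev_add, hx1, hy1, Polynomial.eval₂_add]
    · rw [Prod.snd_add, ev_add, hx2, hy2, Polynomial.eval₂_add]
  | monomial j c =>
    have hp : ∀ j : ℕ, a ^ j ∈ ⨆ k, W k := by
      intro j
      induction j with
      | zero => rw [pow_zero]; exact hS.oneV
      | succ j ih => rw [pow_succ]; exact hS.mulV ih ha
    refine ⟨(c : ℂ) • a ^ j, Submodule.smul_mem _ _ (hp j), fun w => ?_, fun w => ?_⟩
    · rw [Prod.smul_fst, Prod.pow_fst, MvPolynomial.smul_eq_C_mul, ev_mul, ev_C, ev_pow,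
        Polynomial.eval₂_monomial]
      simp
    · rw [Prod.smul_snd, Prod.pow_snd, MvPolynomial.smul_eq_C_mul, ev_mul, ev_C, ev_pow,
        Polynomial.eval₂_monomial]
      simp

/-- the constant of the law -/
noncomputable def cr (n : ℕ) (Pi : MvPolynomial (Fin l) ℂ) : ℝ :=
  (∫ w, ‖ev Pi w‖ ^ 2 ∂(sg l)) / ar n

theorem Sys.c1_eq (hS : Sys d Pi W) : c1 n Pi = ((cr n Pi : ℝ) : ℂ) := by
  unfold c1 cr
  have h1 : Sq (Pi * Pi) = ((∫ w, ‖ev Pi w‖ ^ 2 ∂(sg l) : ℝ) : ℂ) := by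
    rw [Sq_sg, ← integral_complex_ofReal]
    refine integral_congr_ae (Filter.Eventually.of_forall fun w => ?_)
    simp only
    rw [ev_mul, hS.Pi_sq]
  rw [h1]
  push_cast
  rfl

theorem Sys.law_poly (hS : Sys d Pi W) {a : MvPolynomial (Fin n) ℂ × MvPolynomial (Fin l) ℂ}
    (ha : a ∈ ⨆ k, W k) (Q : Polynomial ℝ) :
    cr n Pi * ∫ w, Q.eval (‖ev a.1 w‖ ^ 2) ∂(sg n) =
      ∫ w, Q.eval (‖ev a.2 w‖ ^ 2) * ‖ev Pi w‖ ^ 2 ∂(sg l) := by
  have hA : a * (cj a.1, cj a.2) ∈ ⨆ k, W k := hS.mulV ha (hS.starV ha)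
  obtain ⟨b, hb, hb1, hb2⟩ := hS.aeval_mem hA Q
  have h := hS.law b hb
  unfold Law at h
  have e0 : ∀ x : ℝ, Polynomial.eval₂ (algebraMap ℝ ℂ) ((x : ℝ) : ℂ) Q = ((Q.eval x : ℝ) : ℂ) := by
    intro x
    have := Polynomial.eval₂_at_apply (p := Q) (algebraMap ℝ ℂ) x
    simpa using this
  have e1 : Sq b.1 = ((∫ w, Q.eval (‖ev a.1 w‖ ^ 2) ∂(sg n) : ℝ) : ℂ) := by
    rw [Sq_sg, ← integral_complex_ofReal]
    refine integral_congr_ae (Filter.Eventually.of_forall fun w => ?_)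
    simp only
    rw [hb1, Prod.fst_mul, ev_mul_cj, e0]
  have e2 : Sq (b.2 * Pi * Pi) =
      ((∫ w, Q.eval (‖ev a.2 w‖ ^ 2) * ‖ev Pi w‖ ^ 2 ∂(sg l) : ℝ) : ℂ) := by
    rw [Sq_sg, ← integral_complex_ofReal]
    refine integral_congr_ae (Filter.Eventually.of_forall fun w => ?_)
    simp only
    rw [ev_mul, ev_mul, mul_assoc, hS.Pi_sq, hb2, Prod.snd_mul, ev_mul_cj, e0]
    push_cast
    rfl
  rw [e1, e2, hS.c1_eq] at h
  exact_mod_cast h

theorem ar_sg (n : ℕ) : (sg n).real univ = ar n := by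
  unfold ar sg
  rw [measureReal_def, measureReal_def, Measure.map_apply measurable_subtype_coe MeasurableSet.univ,
    preimage_univ]

theorem Sys.law_cont (hS : Sys d Pi W) {a : MvPolynomial (Fin n) ℂ × MvPolynomial (Fin l) ℂ}
    (ha : a ∈ ⨆ k, W k) (f : ℝ → ℝ) (hf : Continuous f) :
    cr n Pi * ∫ w, f (‖ev a.1 w‖ ^ 2) ∂(sg n) =
      ∫ w, f (‖ev a.2 w‖ ^ 2) * ‖ev Pi w‖ ^ 2 ∂(sg l) := by
  have f1 := sg_finite n
  have f2 := sg_finite l
  have hn1 : 1 ≤ n := by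
    have := hS.two
    have := hS.dim
    omega
  obtain ⟨B1, hB1, h1⟩ := ev_bdd a.1
  obtain ⟨B2, hB2, h2⟩ := ev_bdd a.2
  set I := ∫ w, ‖ev Pi w‖ ^ 2 ∂(sg l) with hI
  have hI0 : 0 ≤ I := integral_nonneg fun w => by positivity
  have c1' : Continuous fun w : E n => ‖ev a.1 w‖ ^ 2 := (ev_cont a.1).norm.pow 2
  have c2' : Continuous fun w : E l => ‖ev a.2 w‖ ^ 2 := (ev_cont a.2).norm.pow 2
  have c3' : Continuous fun w : E l => ‖ev Pi w‖ ^ 2 := (ev_cont Pi).norm.pow 2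
  have har := ar_pos hn1
  have hcr : cr n Pi * ar n = I := by
    unfold cr
    rw [div_mul_cancel₀ _ har.ne']
  have hcr0 : 0 ≤ cr n Pi := div_nonneg hI0 har.le
  have j1 : Integrable (fun w : E n => f (‖ev a.1 w‖ ^ 2)) (sg n) := sg_int (hf.comp c1')
  have j2 : Integrable (fun w : E l => f (‖ev a.2 w‖ ^ 2) * ‖ev Pi w‖ ^ 2) (sg l) :=
    sg_int ((hf.comp c2').mul c3')
  have key : ∀ ε : ℝ, 0 < ε → |cr n Pi * (∫ w, f (‖ev a.1 w‖ ^ 2) ∂(sg n)) -
      ∫ w, f (‖ev a.2 w‖ ^ 2) * ‖ev Pi w‖ ^ 2 ∂(sg l)| ≤ ε * (2 * I) := by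
    intro ε hε
    obtain ⟨Q, hQ⟩ := exists_polynomial_near_of_continuousOn 0 (B1 ^ 2 + B2 ^ 2) f
      hf.continuousOn ε hε
    have k1 : |(∫ w, Q.eval (‖ev a.1 w‖ ^ 2) ∂(sg n)) - ∫ w, f (‖ev a.1 w‖ ^ 2) ∂(sg n)| ≤
        ε * ar n := by
      have i1 : Integrable (fun w : E n => Q.eval (‖ev a.1 w‖ ^ 2)) (sg n) :=
        sg_int (Q.continuous.comp c1')
      rw [← integral_sub i1 j1, ← Real.norm_eq_abs]
      have := norm_integral_le_of_norm_le_const (μ := sg n) (C := ε)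
        (f := fun w => Q.eval (‖ev a.1 w‖ ^ 2) - f (‖ev a.1 w‖ ^ 2)) (by
          filter_upwards [sg_ae n] with w hw
          rw [Real.norm_eq_abs]
          refine (hQ _ ⟨by positivity, ?_⟩).le
          have := h1 w hw
          nlinarith [norm_nonneg (ev a.1 w), sq_nonneg B2])
      rwa [ar_sg] at this
    have k2 : |(∫ w, Q.eval (‖ev a.2 w‖ ^ 2) * ‖ev Pi w‖ ^ 2 ∂(sg l)) -
        ∫ w, f (‖ev a.2 w‖ ^ 2) * ‖ev Pi w‖ ^ 2 ∂(sg l)| ≤ ε * I := by
      have i2 : Integrable (fun w : E l => Q.eval (‖ev a.2 w‖ ^ 2) * ‖ev Pi w‖ ^ 2) (sg l) :=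
        sg_int ((Q.continuous.comp c2').mul c3')
      rw [← integral_sub i2 j2, ← Real.norm_eq_abs]
      refine (norm_integral_le_integral_norm _).trans ?_
      rw [hI, ← integral_const_mul]
      refine integral_mono_ae (sg_int ?_) (sg_int (c3'.const_mul ε)) ?_
      · exact (((Q.continuous.comp c2').mul c3').sub ((hf.comp c2').mul c3')).norm
      · filter_upwards [sg_ae l] with w hw
        rw [← sub_mul, norm_mul, Real.norm_eq_abs, Real.norm_of_nonneg (by positivity)]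
        refine mul_le_mul_of_nonneg_right ?_ (by positivity)
        refine (hQ _ ⟨by positivity, ?_⟩).le
        have := h2 w hw
        nlinarith [norm_nonneg (ev a.2 w), sq_nonneg B1]
    have k3 := hS.law_poly ha Q
    have k4 : |cr n Pi * (∫ w, Q.eval (‖ev a.1 w‖ ^ 2) ∂(sg n)) -
        cr n Pi * ∫ w, f (‖ev a.1 w‖ ^ 2) ∂(sg n)| ≤ ε * I := by
      rw [← mul_sub, abs_mul, abs_of_nonneg hcr0, ← hcr]
      calc cr n Pi * _ ≤ cr n Pi * (ε * ar n) := mul_le_mul_of_nonneg_left k1 hcr0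
        _ = _ := by ring
    rw [k3] at k4
    rw [abs_le] at k2 k4 ⊢
    constructor <;> linarith [k2.1, k2.2, k4.1, k4.2]
  have h3 : |cr n Pi * (∫ w, f (‖ev a.1 w‖ ^ 2) ∂(sg n)) -
      ∫ w, f (‖ev a.2 w‖ ^ 2) * ‖ev Pi w‖ ^ 2 ∂(sg l)| ≤ 0 := by
    refine le_of_forall_pos_le_add fun δ hδ => ?_
    have hp : 0 < δ / (2 * I + 1) := by positivity
    refine (key _ hp).trans ?_
    rw [zero_add, div_mul_eq_mul_div, div_le_iff₀ (by positivity)]
    nlinarith
  have h4 := abs_nonpos_iff.1 h3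
  linarith

theorem exists_nonzero {q : MvPolynomial (Fin n) ℂ} (hq : q ≠ 0) : ∃ w : E n, ev q w ≠ 0 := by
  by_contra hcon
  push Not at hcon
  apply hq
  have h1 : ∀ x : Fin n → ℝ, MvPolynomial.eval (fun i => ((x i : ℝ) : ℂ)) q = 0 := by
    intro x
    exact hcon (WithLp.toLp 2 x)
  refine MvPolynomial.funext_set (R := ℂ) (fun _ => Set.range ((↑) : ℝ → ℂ)) (fun _ => ?_) ?_
  · exact Set.infinite_range_of_injective Complex.ofReal_injective
  · intro x hx
    have h2 : ∀ i, ∃ y : ℝ, (y : ℂ) = x i := fun i => hx i (Set.mem_univ _)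
    choose y hy using h2
    have h3 := h1 y
    simp only [hy] at h3
    rw [h3, map_zero]

theorem Sys.I_pos (hS : Sys d Pi W) : 0 < ∫ w, ‖ev Pi w‖ ^ 2 ∂(sg l) := by
  have h0 : 0 ≤ ∫ w, ‖ev Pi w‖ ^ 2 ∂(sg l) := integral_nonneg fun w => by positivity
  rcases h0.eq_or_lt with h | h
  · exfalso
    have c3' : Continuous fun w : E l => ‖ev Pi w‖ ^ 2 := (ev_cont Pi).norm.pow 2
    have h1 := sg_zero c3' (fun w => by positivity) h.symm
    have h2 : ∀ w : E l, ‖w‖ = 1 → ev Pi w = 0 := by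
      intro w hw
      have := h1 w hw
      simpa using this
    obtain ⟨w, hw⟩ := exists_nonzero hS.Pi_ne
    by_cases hw0 : w = 0
    · -- then Pi is constant
      subst hw0
      have h3 : ∀ z : E l, ev Pi z = ((‖z‖ ^ d : ℝ) : ℂ) * ev Pi (‖z‖⁻¹ • z) := by
        intro z
        by_cases hz : z = 0
        · subst hz
          have := ev_smul d Pi hS.hPi 0 (0 : E l)
          simp only [norm_zero, inv_zero, smul_zero] at this ⊢
          exact this
        · rw [← ev_smul d Pi hS.hPi, smul_smul, mul_inv_cancel₀ (norm_ne_zero_iff.2 hz), one_smul]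
      have hl := hS.two
      have : Nonempty (Fin l) := ⟨⟨0, by omega⟩⟩
      have : Nontrivial (E l) := inferInstance
      obtain ⟨v, hv⟩ := NormedSpace.sphere_nonempty (x := (0 : E l)).2 zero_le_one
      have hv1 : ‖v‖ = 1 := by simpa using hv
      rcases Nat.eq_zero_or_pos d with hd | hd
      · subst hd
        have h4 : Pi = MvPolynomial.C (MvPolynomial.coeff 0 Pi) :=
          MvPolynomial.totalDegree_eq_zero_iff_eq_C.1 (Nat.le_zero.1 hS.hPi.totalDegree_le)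
        have h5 := h2 v hv1
        rw [h4, ev_C] at h5 hw
        exact hw h5
      · have := ev_smul d Pi hS.hPi 0 (0 : E l)
        rw [smul_zero, zero_pow hd.ne'] at this
        apply hw
        rw [this]
        simp
    · have hn0 : ‖w‖ ≠ 0 := norm_ne_zero_iff.2 hw0
      have h3 := ev_smul d Pi hS.hPi ‖w‖ (‖w‖⁻¹ • w)
      rw [smul_smul, mul_inv_cancel₀ hn0, one_smul] at h3
      apply hw
      rw [h3, h2 (‖w‖⁻¹ • w) (by rw [norm_smul, norm_inv, norm_norm, inv_mul_cancel₀ hn0]), mul_zero]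
  · exact h

theorem Sys.cr_pos (hS : Sys d Pi W) : 0 < cr n Pi := by
  have hn1 : 1 ≤ n := by
    have := hS.two
    have := hS.dim
    omega
  exact div_pos hS.I_pos (ar_pos hn1)

/-- comparison of the suprema -/
theorem Sys.sup_le (hS : Sys d Pi W) {a : MvPolynomial (Fin n) ℂ × MvPolynomial (Fin l) ℂ}
    (ha : a ∈ ⨆ k, W k) (B : ℝ) (hB : 0 ≤ B) (h : ∀ w : E n, ‖w‖ = 1 → ‖ev a.1 w‖ ≤ B) (w : E l)
    (hw : ‖w‖ = 1) : ‖ev (a.2 * Pi) w‖ ≤ B * ‖ev Pi w‖ := by
  have hf : Continuous fun s : ℝ => max (s - B ^ 2) 0 := by fun_prop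
  have h1 := hS.law_cont ha _ hf
  have h2 : ∫ w, max (‖ev a.1 w‖ ^ 2 - B ^ 2) 0 ∂(sg n) = 0 := by
    rw [integral_congr_ae (g := fun _ => (0 : ℝ))]
    · simp
    · filter_upwards [sg_ae n] with w hw
      apply max_eq_right
      have := h w hw
      nlinarith [norm_nonneg (ev a.1 w)]
  rw [h2, mul_zero] at h1
  have h3 := sg_zero (f := fun w : E l => max (‖ev a.2 w‖ ^ 2 - B ^ 2) 0 * ‖ev Pi w‖ ^ 2)
    ((hf.comp ((ev_cont a.2).norm.pow 2)).mul ((ev_cont Pi).norm.pow 2))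
    (fun w => mul_nonneg (le_max_right _ _) (by positivity)) h1.symm w hw
  rw [ev_mul, norm_mul]
  rcases mul_eq_zero.1 h3 with h4 | h4
  · have h5 : ‖ev a.2 w‖ ^ 2 - B ^ 2 ≤ 0 := by
      rw [← h4]; exact le_max_left _ _
    have h6 : ‖ev a.2 w‖ ≤ B := by
      rw [← Real.sqrt_sq (norm_nonneg (ev a.2 w)), ← Real.sqrt_sq hB]
      exact Real.sqrt_le_sqrt (by linarith)
    exact mul_le_mul_of_nonneg_right h6 (norm_nonneg _)
  · have h5 : ‖ev Pi w‖ = 0 := by simpa using h4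
    rw [h5, mul_zero, mul_zero]

end Pool.Agent.H72.Co
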