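import Mathlib
import Pool.Agent.H72.Co.C3
set_option autoImplicit false

/-! Equality of the norm of the transform and of a weighted norm in the small space. -/

open MeasureTheory Set Metric
open scoped ENNReal RealInnerProductSpace

namespace Pool.Agent.H72.Co

open MvPolynomial (pderiv)
open Pool.Agent.H789R2.FR (E sg T sg_finite sg_ae polar)
open Pool.Agent.W5h55.SH

variable {n l d : ℕ}

theorem T_cont {f : E n → ℂ} (hf : Measurable f) (B : ℝ) (hB : ∀ y, ‖y‖ = 1 → ‖f y‖ ≤ B) :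
    Continuous (T f) := by
  have := sg_finite n
  unfold T
  refine continuous_of_dominated (bound := fun _ => B) (fun x => (ker_int hf B hB x).1) ?_ ?_ ?_
  · intro x
    filter_upwards [sg_ae n] with w hw
    rw [norm_mul, show -((⟪x, w⟫ : ℝ) : ℂ) * Complex.I = ((-⟪x, w⟫ : ℝ) : ℂ) * Complex.I by
      push_cast; ring, Complex.norm_exp_ofReal_mul_I, one_mul]
    exact hB w hw
  · exact integrable_const _
  · refine Filter.Eventually.of_forall fun w => ?_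
    fun_prop

theorem T_ev_cont (q : MvPolynomial (Fin n) ℂ) : Continuous (T (ev q)) := by
  obtain ⟨B, _, hB⟩ := ev_bdd q
  exact T_cont (ev_cont q).measurable B hB

theorem polar' (hn : 0 < n) (f : E n → ℝ≥0∞) (hf : Measurable f) :
    ∫⁻ x, f x = ∫⁻ r in Ioi (0 : ℝ), ENNReal.ofReal (r ^ (n - 1)) * ∫⁻ w, f (r • w) ∂(sg n) := by
  have := sg_finite n
  rw [polar hn f hf, lintegral_lintegral_swap]
  · refine lintegral_congr fun r => ?_
    rw [lintegral_const_mul' _ _ ENNReal.ofReal_ne_top]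
  · apply Measurable.aemeasurable
    have h1 : Measurable fun p : E n × ℝ => ENNReal.ofReal (p.2 ^ (n - 1)) :=
      (measurable_snd.pow_const _).ennreal_ofReal
    have h2 : Measurable fun p : E n × ℝ => f (p.2 • p.1) :=
      hf.comp (measurable_snd.smul measurable_fst)
    exact h1.mul h2

variable {Pi : MvPolynomial (Fin l) ℂ}
  {W : ℕ → Submodule ℂ (MvPolynomial (Fin n) ℂ × MvPolynomial (Fin l) ℂ)}

theorem Sys.law_q (hS : Sys d Pi W) {a : MvPolynomial (Fin n) ℂ × MvPolynomial (Fin l) ℂ}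
    (ha : a ∈ ⨆ k, W k) (q : ℝ) (hq : 0 < q) :
    ENNReal.ofReal (cr n Pi) * ∫⁻ w, ‖ev a.1 w‖ₑ ^ q ∂(sg n) =
      ∫⁻ w, ‖ev a.2 w‖ₑ ^ q * ‖ev Pi w‖ₑ ^ (2 : ℝ) ∂(sg l) := by
  have hf : Continuous fun s : ℝ => |s| ^ (q / 2) :=
    continuous_abs.rpow_const fun _ => Or.inr (by positivity)
  have h := hS.law_cont ha _ hf
  have e : ∀ x : ℝ, 0 ≤ x → |x ^ 2| ^ (q / 2) = x ^ q := by
    intro x hx
    rw [abs_of_nonneg (by positivity), ← Real.rpow_natCast, ← Real.rpow_mul hx]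
    congr 1
    push_cast
    ring
  simp only [e _ (norm_nonneg _)] at h
  have c1' : Continuous fun w : E n => ‖ev a.1 w‖ ^ q :=
    (ev_cont a.1).norm.rpow_const fun _ => Or.inr hq.le
  have c2' : Continuous fun w : E l => ‖ev a.2 w‖ ^ q * ‖ev Pi w‖ ^ 2 :=
    ((ev_cont a.2).norm.rpow_const fun _ => Or.inr hq.le).mul ((ev_cont Pi).norm.pow 2)
  have h1 : ∫⁻ w, ‖ev a.1 w‖ₑ ^ q ∂(sg n) = ENNReal.ofReal (∫ w, ‖ev a.1 w‖ ^ q ∂(sg n)) := by
    rw [ofReal_integral_eq_lintegral_ofReal (sg_int c1')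
      (Filter.Eventually.of_forall fun w => by positivity)]
    refine lintegral_congr fun w => ?_
    rw [← ofReal_norm, ENNReal.ofReal_rpow_of_nonneg (norm_nonneg _) hq.le]
  have h2 : ∫⁻ w, ‖ev a.2 w‖ₑ ^ q * ‖ev Pi w‖ₑ ^ (2 : ℝ) ∂(sg l) =
      ENNReal.ofReal (∫ w, ‖ev a.2 w‖ ^ q * ‖ev Pi w‖ ^ 2 ∂(sg l)) := by
    rw [ofReal_integral_eq_lintegral_ofReal (sg_int c2')
      (Filter.Eventually.of_forall fun w => by positivity)]
    refine lintegral_congr fun w => ?_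
    rw [← ofReal_norm, ENNReal.ofReal_rpow_of_nonneg (norm_nonneg _) hq.le, ← ofReal_norm,
      ENNReal.ofReal_rpow_of_nonneg (norm_nonneg _) (by norm_num),
      ← ENNReal.ofReal_mul (by positivity)]
    congr 2
    exact Real.rpow_two _
  rw [h1, h2, ← ENNReal.ofReal_mul hS.cr_pos.le, h]

/-- **the norm of the transform** -/
theorem Sys.norm_eq (hS : Sys d Pi W) {a : MvPolynomial (Fin n) ℂ × MvPolynomial (Fin l) ℂ}
    (ha : a ∈ ⨆ k, W k) (q : ℝ) (hq : 0 < q) :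
    ENNReal.ofReal (Kc n l d ^ q * cr n Pi) * ∫⁻ x, ‖T (ev a.1) x‖ₑ ^ q =
      ∫⁻ z, ‖T (ev (a.2 * Pi)) z‖ₑ ^ q * ‖ev Pi z‖ₑ ^ (2 - q) := by
  have hl := hS.two
  have hdim := hS.dim
  have hKc : 0 < Kc n l d := Kc_pos hl (by omega)
  have m1 : Measurable fun x : E n => ‖T (ev a.1) x‖ₑ ^ q :=
    (T_ev_cont a.1).measurable.enorm.pow_const _
  have m2 : Measurable fun z : E l => ‖T (ev (a.2 * Pi)) z‖ₑ ^ q * ‖ev Pi z‖ₑ ^ (2 - q) :=
    ((T_ev_cont _).measurable.enorm.pow_const _).mul ((ev_cont Pi).measurable.enorm.pow_const _)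
  rw [polar' (by omega) _ m1, polar' (by omega) _ m2,
    ← lintegral_const_mul' _ _ ENNReal.ofReal_ne_top]
  refine setLIntegral_congr_fun measurableSet_Ioi fun r hr => ?_
  have hr0 : 0 < r := hr
  obtain ⟨b, hb, hb1, hb2⟩ := hS.good a ha r hr0.le
  have e1 : ∫⁻ w, ‖T (ev a.1) (r • w)‖ₑ ^ q ∂(sg n) = ∫⁻ w, ‖ev b.1 w‖ₑ ^ q ∂(sg n) := by
    refine lintegral_congr_ae ?_
    filter_upwards [sg_ae n] with w hw
    rw [hb1 w hw]
  have e2 : ∫⁻ w, ‖T (ev (a.2 * Pi)) (r • w)‖ₑ ^ q * ‖ev Pi (r • w)‖ₑ ^ (2 - q) ∂(sg l) =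
      ENNReal.ofReal (Kc n l d ^ q * r ^ (2 * d)) *
        ∫⁻ w, ‖ev b.2 w‖ₑ ^ q * ‖ev Pi w‖ₑ ^ (2 : ℝ) ∂(sg l) := by
    rw [← lintegral_const_mul' _ _ ENNReal.ofReal_ne_top]
    refine lintegral_congr_ae ?_
    filter_upwards [sg_ae l] with w hw
    have h1 : ‖(-Complex.I) ^ d * ((Kc n l d : ℝ) : ℂ) * (ev b.2 w * ev Pi (r • w))‖ₑ =
        ENNReal.ofReal (Kc n l d) * (‖ev b.2 w‖ₑ * ‖ev Pi (r • w)‖ₑ) := by
      rw [enorm_mul, enorm_mul, enorm_mul]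
      congr 1
      rw [← ofReal_norm, ← ofReal_norm, norm_pow, norm_neg, Complex.norm_I, one_pow,
        ENNReal.ofReal_one, one_mul, Complex.norm_real, Real.norm_of_nonneg hKc.le]
    rw [hb2 w hw, h1, ENNReal.mul_rpow_of_nonneg _ _ hq.le, ENNReal.mul_rpow_of_nonneg _ _ hq.le]
    have h2 : ‖ev Pi (r • w)‖ₑ ^ q * ‖ev Pi (r • w)‖ₑ ^ (2 - q) = ‖ev Pi (r • w)‖ₑ ^ (2 : ℝ) := by
      by_cases h0 : ev Pi (r • w) = 0
      · rw [h0, enorm_zero, ENNReal.zero_rpow_of_pos hq, zero_mul,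
          ENNReal.zero_rpow_of_pos (by norm_num)]
      · rw [← ENNReal.rpow_add _ _ (by simpa using h0) enorm_ne_top]
        congr 1
        ring
    have h3 : ‖ev Pi (r • w)‖ₑ ^ (2 : ℝ) = ENNReal.ofReal (r ^ (2 * d)) * ‖ev Pi w‖ₑ ^ (2 : ℝ) := by
      rw [ev_smul d Pi hS.hPi, enorm_mul, ENNReal.mul_rpow_of_nonneg _ _ (by norm_num)]
      congr 1
      rw [← ofReal_norm, Complex.norm_real, Real.norm_of_nonneg (by positivity),
        ENNReal.ofReal_rpow_of_nonneg (by positivity) (by norm_num)]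
      congr 1
      rw [Real.rpow_two, ← pow_mul, mul_comm]
    calc ENNReal.ofReal (Kc n l d) ^ q * (‖ev b.2 w‖ₑ ^ q * ‖ev Pi (r • w)‖ₑ ^ q) *
          ‖ev Pi (r • w)‖ₑ ^ (2 - q)
        = ENNReal.ofReal (Kc n l d) ^ q * (‖ev b.2 w‖ₑ ^ q *
          (‖ev Pi (r • w)‖ₑ ^ q * ‖ev Pi (r • w)‖ₑ ^ (2 - q))) := by ring
      _ = _ := by
          rw [h2, h3, ENNReal.ofReal_rpow_of_nonneg hKc.le hq.le,
            ENNReal.ofReal_mul (by positivity)]
          ring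
  rw [e1, e2, ← hS.law_q hb q hq]
  have hpow : r ^ (n - 1) = r ^ (l - 1) * r ^ (2 * d) := by
    rw [← pow_add]
    congr 1
    omega
  rw [hpow, ENNReal.ofReal_mul (by positivity), ENNReal.ofReal_mul (by positivity),
    ENNReal.ofReal_mul (by positivity)]
  ring

end Pool.Agent.H72.Co
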