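import Mathlib
import Pool.Agent.H72.Lib.S8.TH335.RF.R1
set_option autoImplicit false

/-! Densities which are odd with respect to a reflection: estimates with weights that depend on the
distance to the hyperplane. -/

open MeasureTheory Set Metric
open scoped ENNReal RealInnerProductSpace

namespace Pool.Agent.H72.Co

open Pool.Agent.H789R2.FR (E sg T sg_finite sg_ae sg_inv)
open Pool.Agent.H438R2.BR (J J_mp J_inner)
open Pool.Agent.H438R2.BR.T10 (e0 e0_norm)
open Pool.Agent.H438R2.PD (P1 P2 P1_meas P2_meas T_meas' T_le T_comp)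
open Pool.Agent.TH335.RF

/-- the reflection in the hyperplane orthogonal to the unit vector `a` -/
noncomputable def rf {n : ℕ} (a z : E n) : E n := z - (2 * ⟪a, z⟫) • a

variable {n m : ℕ}

theorem rf_eq {a : E n} (ha : ‖a‖ = 1) (z : E n) : (ℝ ∙ a)ᗮ.reflection z = rf a z := by
  rw [Submodule.reflection_orthogonal_apply, Submodule.reflection_singleton_apply, ha]
  unfold rf
  simp only [one_pow, div_one, neg_sub, RCLike.ofReal_real_eq_id, id_eq]
  rw [mul_smul, two_smul, two_smul]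

/-- the first unit vector -/
noncomputable def ef (m : ℕ) : E (1 + m) := J e0 0

theorem ef_norm : ‖ef m‖ = 1 := by
  have h : ‖ef m‖ ^ 2 = 1 := by
    rw [← real_inner_self_eq_norm_sq, ef, J_inner, real_inner_self_eq_norm_sq, e0_norm]
    simp
  have h0 := norm_nonneg (ef m)
  nlinarith

theorem ef_inner (r : ℝ) (y : E m) : (⟪ef m, J (r • e0) y⟫ : ℝ) = r := by
  rw [ef, J_inner, real_inner_smul_right, real_inner_self_eq_norm_sq, e0_norm]
  simp

theorem J_add (x x' : E 1) (y y' : E m) : J x y + J x' y' = J (x + x') (y + y') := by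
  unfold J
  ext i
  refine Fin.addCases (fun j => ?_) (fun j => ?_) i
  · simp [Fin.append_left]
  · simp [Fin.append_right]

theorem J_smul (c : ℝ) (x : E 1) (y : E m) : c • J x y = J (c • x) (c • y) := by
  unfold J
  ext i
  refine Fin.addCases (fun j => ?_) (fun j => ?_) i
  · simp [Fin.append_left]
  · simp [Fin.append_right]

theorem rf_J (r : ℝ) (y : E m) : rf (ef m) (J (r • e0) y) = J ((-r) • e0) y := by
  unfold rf
  rw [ef_inner, ef, sub_eq_add_neg, ← neg_smul, J_smul, J_add, ← add_smul]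
  congr 1
  · congr 1
    ring
  · simp

theorem J_P (z : E (1 + m)) : J (P1 1 m z) (P2 1 m z) = z := by
  unfold J P1 P2
  ext i
  refine Fin.addCases (fun j => ?_) (fun j => ?_) i
  · simp [Fin.append_left]
  · simp [Fin.append_right]

theorem E1_eq (x : E 1) : x = (x 0) • e0 := by
  ext i
  fin_cases i
  simp [e0]

theorem J_P' (z : E (1 + m)) : J (((P1 1 m z) 0) • e0) (P2 1 m z) = z := by
  rw [← E1_eq, J_P]

theorem ef_inner' (z : E (1 + m)) : (⟪ef m, z⟫ : ℝ) = (P1 1 m z) 0 := by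
  conv_lhs => rw [← J_P' z]
  rw [ef_inner]

theorem norm_J (r : ℝ) (y : E m) : ‖J (r • e0) y‖ ^ 2 = r ^ 2 + ‖y‖ ^ 2 := by
  rw [← real_inner_self_eq_norm_sq, J_inner, real_inner_self_eq_norm_sq,
    real_inner_self_eq_norm_sq, norm_smul, e0_norm, mul_one, Real.norm_eq_abs, sq_abs]

/-- the density over the ball -/
noncomputable def Fv (v : E (1 + m) → ℂ) : E m → ℂ :=
  (ball (0 : E m) 1).indicator fun y => (((wt y)⁻¹ : ℝ) : ℂ) * v (up y)

theorem Fv_meas {v : E (1 + m) → ℂ} (hv : Measurable v) : Measurable (Fv v) := by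
  unfold Fv
  refine Measurable.indicator ?_ measurableSet_ball
  have h1 : Measurable fun y : E m => (wt y)⁻¹ := wt_meas.inv
  exact h1.complex_ofReal.mul (hv.comp up_meas)

theorem up_norm {y : E m} (hy : y ∈ ball (0 : E m) 1) : ‖up y‖ = 1 := by
  have h1 : ‖up y‖ ^ 2 = 1 := by
    unfold up
    rw [norm_J]
    unfold wt
    have : ‖y‖ < 1 := by simpa using hy
    rw [Real.sq_sqrt (by nlinarith [norm_nonneg y])]
    ring
  have h0 := norm_nonneg (up y)
  nlinarith

theorem Fv_le {v : E (1 + m) → ℂ} (h : ∀ z, ‖z‖ = 1 → ‖v z‖ ≤ |⟪ef m, z⟫|) (y : E m) :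
    ‖Fv v y‖ ≤ 1 := by
  unfold Fv
  by_cases hy : y ∈ ball (0 : E m) 1
  · rw [indicator_of_mem hy, norm_mul, Complex.norm_real, Real.norm_of_nonneg
      (inv_nonneg.2 (wt_nonneg y))]
    have h1 := h (up y) (up_norm hy)
    have h2 := wt_pos hy
    rw [ef_inner', co_up, abs_of_pos h2] at h1
    calc (wt y)⁻¹ * ‖v (up y)‖ ≤ (wt y)⁻¹ * wt y :=
          mul_le_mul_of_nonneg_left h1 (inv_nonneg.2 h2.le)
      _ = 1 := inv_mul_cancel₀ h2.ne'
  · rw [indicator_of_notMem hy, norm_zero]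
    exact zero_le_one

theorem gu_of_pos {v : E (1 + m) → ℂ} {z : E (1 + m)} (hz : ‖z‖ = 1) (h0 : 0 < (P1 1 m z) 0) :
    gu 3 (Fv v) z = v z := by
  have hJ := J_P' z
  set r := (P1 1 m z) 0 with hr
  set y := P2 1 m z with hy
  have h1 : r ^ 2 + ‖y‖ ^ 2 = 1 := by
    rw [← norm_J, hJ, hz]
    norm_num
  have hr1 : r ≤ 1 := by nlinarith [sq_nonneg ‖y‖]
  have hyb : y ∈ ball (0 : E m) 1 := by
    rw [mem_ball_zero_iff]
    nlinarith [norm_nonneg y]
  have hw : wt y = r := by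
    unfold wt
    rw [show 1 - ‖y‖ ^ 2 = r ^ 2 by linarith, Real.sqrt_sq h0.le]
  unfold gu
  rw [indicator_of_mem (show z ∈ {z : E (1 + m) | 0 < (P1 1 m z) 0 ∧ (P1 1 m z) 0 ≤ 1} from
    ⟨h0, hr1⟩)]
  unfold Fv
  rw [indicator_of_mem hyb, hw]
  have h2 : up y = z := by
    unfold up
    rw [hw, hJ]
  rw [h2]
  have h3 : (((3 : ℕ) : ℝ) - 1) / 2 = 1 := by norm_num
  rw [h3, Real.rpow_one, ← mul_assoc]
  have h4 : ((r : ℝ) : ℂ) * (((r)⁻¹ : ℝ) : ℂ) = 1 := by
    rw [← Complex.ofReal_mul, mul_inv_cancel₀ h0.ne', Complex.ofReal_one]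
  rw [h4, one_mul]

theorem gu_of_neg {F : E m → ℂ} {z : E (1 + m)} (h0 : ¬ 0 < (P1 1 m z) 0) : gu 3 F z = 0 := by
  unfold gu
  rw [indicator_of_notMem]
  intro h
  exact h0 h.1

/-- the transform of an odd density -/
theorem T_odd (hm : 1 ≤ m) {v : E (1 + m) → ℂ} (hv : Measurable v)
    (hb : ∀ z, ‖z‖ = 1 → ‖v z‖ ≤ |⟪ef m, z⟫|) (hodd : ∀ z, v (rf (ef m) z) = -v z)
    (r : ℝ) (y : E m) :
    T v (J (r • e0) y) = Gf 3 (Fv v) r y - Gf 3 (Fv v) (-r) y := by
  set R : E (1 + m) ≃ₗᵢ[ℝ] E (1 + m) := (ℝ ∙ (ef m))ᗮ.reflection with hR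
  have hRz : ∀ z, R z = rf (ef m) z := fun z => rf_eq ef_norm z
  have hR0 : ∀ z, (P1 1 m (R z)) 0 = -(P1 1 m z) 0 := by
    intro z
    rw [← ef_inner', hRz]
    conv_lhs => rw [← J_P' z]
    rw [rf_J, ef_inner]
  have hRn : ∀ z, ‖R z‖ = ‖z‖ := fun z => R.norm_map z
  have key : ∀ z, ‖z‖ = 1 → v z = gu 3 (Fv v) z - gu 3 (Fv v) (R z) := by
    intro z hz
    rcases lt_trichotomy 0 ((P1 1 m z) 0) with h | h | h
    · rw [gu_of_pos hz h, gu_of_neg (z := R z) (by rw [hR0]; linarith), sub_zero]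
    · rw [gu_of_neg (z := z) (by linarith), gu_of_neg (z := R z) (by rw [hR0]; linarith), sub_zero]
      have h1 := hb z hz
      rw [ef_inner', ← h, abs_zero] at h1
      exact norm_le_zero_iff.1 h1
    · rw [gu_of_neg (z := z) (by linarith),
        gu_of_pos (z := R z) (by rw [hRn, hz]) (by rw [hR0]; linarith), hRz, hodd, zero_sub, neg_neg]
  have hgm := gu_meas 3 (Fv v) (Fv_meas hv)
  have hgb := gu_le 3 (by norm_num) (Fv v) (Fv_le hb)
  have f1 := sg_finite (1 + m)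
  have hint : ∀ g : E (1 + m) → ℂ, Measurable g → (∀ z, ‖g z‖ ≤ 1) →
      Integrable (fun w => Complex.exp (-((⟪J (r • e0) y, w⟫ : ℝ) : ℂ) * Complex.I) * g w)
        (sg (1 + m)) := by
    intro g hg hg1
    refine Integrable.of_bound (C := 1) ?_ ?_
    · have h1 : Measurable fun w : E (1 + m) => (⟪J (r • e0) y, w⟫ : ℝ) := by fun_prop
      exact ((Complex.measurable_exp.comp
        ((Complex.measurable_ofReal.comp h1).neg.mul_const Complex.I)).mul hg).aestronglyMeasurable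
    · refine Filter.Eventually.of_forall fun w => ?_
      rw [norm_mul, Pool.Agent.H438R2.PD.exp_norm, one_mul]
      exact hg1 w
  have e1 : T v (J (r • e0) y) = T (gu 3 (Fv v)) (J (r • e0) y) -
      T (fun z => gu 3 (Fv v) (R z)) (J (r • e0) y) := by
    unfold T
    rw [← integral_sub (hint _ hgm hgb) (hint (fun z => gu 3 (Fv v) (R z))
      (hgm.comp R.continuous.measurable) (fun z => hgb _))]
    refine integral_congr_ae ?_
    filter_upwards [sg_ae (1 + m)] with w hw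
    rw [key w hw]
    ring
  rw [e1, T_comp R, T_gu 3 hm _ (Fv_meas hv), hRz, rf_J, T_gu 3 hm _ (Fv_meas hv)]

theorem FB_sub {A B : E m → ℂ} (y : E m)
    (hA : IntegrableOn (fun y' => A y' * Complex.exp (-((⟪y', y⟫ : ℝ) : ℂ) * Complex.I))
      (ball (0 : E m) 1))
    (hB : IntegrableOn (fun y' => B y' * Complex.exp (-((⟪y', y⟫ : ℝ) : ℂ) * Complex.I))
      (ball (0 : E m) 1)) : FB A y - FB B y = FB (fun y' => A y' - B y') y := by
  unfold FB
  rw [← integral_sub hA hB]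
  refine integral_congr_ae (Filter.Eventually.of_forall fun w => ?_)
  simp only
  ring

theorem exp_diff (t : ℝ) : ‖Complex.exp (((-t : ℝ) : ℂ) * Complex.I) -
    Complex.exp ((t : ℂ) * Complex.I)‖ ≤ 2 * min 1 |t| := by
  have h1 : ‖Complex.exp (((-t : ℝ) : ℂ) * Complex.I) - Complex.exp ((t : ℂ) * Complex.I)‖ =
      2 * |Real.sin t| := by
    have h2 : Complex.exp (((-t : ℝ) : ℂ) * Complex.I) - Complex.exp ((t : ℂ) * Complex.I) =
        -(2 * Complex.I * ((Real.sin t : ℝ) : ℂ)) := by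
      rw [Complex.exp_mul_I, Complex.exp_mul_I]
      push_cast
      rw [Complex.cos_neg, Complex.sin_neg]
      ring
    rw [h2, norm_neg, norm_mul, norm_mul, Complex.norm_I, Complex.norm_real, Real.norm_eq_abs]
    norm_num
  rw [h1]
  refine mul_le_mul_of_nonneg_left (le_min (Real.abs_sin_le_one t) ?_) (by norm_num)
  exact Real.abs_sin_le_abs

/-- **the trace estimate** -/
theorem odd_L2 (hm : 1 ≤ m) : ∃ C : ℝ, 0 < C ∧ ∀ (v : E (1 + m) → ℂ), Measurable v →
    (∀ z, ‖z‖ = 1 → ‖v z‖ ≤ |⟪ef m, z⟫|) → (∀ z, v (rf (ef m) z) = -v z) → ∀ r : ℝ,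
    ∫⁻ y, ‖T v (J (r • e0) y)‖ₑ ^ (2 : ℝ) ≤ ENNReal.ofReal (C * (min 1 |r|) ^ 2) := by
  obtain ⟨C1, hC1, h1⟩ := FB_Lp m 2 le_rfl
  set V := volume.real (ball (0 : E m) 1) with hV
  have hVpos : 0 < V := by
    rw [hV, measureReal_def]
    exact ENNReal.toReal_pos (Metric.measure_ball_pos volume 0 one_pos).ne' ball_fin
  refine ⟨C1 * (4 * V), by positivity, fun v hv hb hodd r => ?_⟩
  have hFm := Fv_meas hv
  have hF := Fv_le hb
  set A : E m → ℂ := fun y => MA 3 (Fv v) r y - MA 3 (Fv v) (-r) y with hA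
  have hAm : Measurable A := (MA_meas 3 _ hFm r).sub (MA_meas 3 _ hFm (-r))
  have e1 : ∀ y, T v (J (r • e0) y) = FB A y := by
    intro y
    rw [T_odd hm hv hb hodd]
    unfold Gf
    exact FB_sub y (MA_int 3 (by norm_num) hm _ hFm hF r y) (MA_int 3 (by norm_num) hm _ hFm hF (-r) y)
  have hAb : ∀ y ∈ ball (0 : E m) 1, ‖A y‖ₑ ^ (2 : ℝ) ≤ ENNReal.ofReal (4 * (min 1 |r|) ^ 2) := by
    intro y hy
    have hw := wt_pos hy
    have hw1 := wt_le_one y
    have h3 : ‖A y‖ ≤ 2 * min 1 |r| := by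
      have h4 : A y = (Complex.exp (((-(r * wt y) : ℝ) : ℂ) * Complex.I) -
          Complex.exp (((r * wt y : ℝ) : ℂ) * Complex.I)) * Fv v y := by
        simp only [hA, MA]
        have h5 : (((3 : ℕ) : ℝ) - 3) / 2 = 0 := by norm_num
        rw [h5, Real.rpow_zero, neg_mul, neg_neg]
        simp only [Complex.ofReal_one, one_mul]
        ring
      rw [h4, norm_mul]
      have h6 := exp_diff (r * wt y)
      have h7 : min 1 |r * wt y| ≤ min 1 |r| := by
        refine min_le_min le_rfl ?_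
        rw [abs_mul, abs_of_pos hw]
        nlinarith [abs_nonneg r]
      calc _ ≤ (2 * min 1 |r * wt y|) * 1 :=
            mul_le_mul h6 (hF y) (norm_nonneg _) (by positivity)
        _ ≤ _ := by linarith
    rw [enorm_sq]
    apply ENNReal.ofReal_le_ofReal
    have h8 : 0 ≤ min 1 |r| := by positivity
    nlinarith [norm_nonneg (A y)]
  have h := h1 A hAm
  rw [div_self (by norm_num : (2 : ℝ) ≠ 0), ENNReal.rpow_one] at h
  simp only [e1]
  refine h.trans ?_
  have h9 : ∫⁻ y in ball (0 : E m) 1, ‖A y‖ₑ ^ (2 : ℝ) ≤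
      ENNReal.ofReal (4 * (min 1 |r|) ^ 2) * ENNReal.ofReal V := by
    calc ∫⁻ y in ball (0 : E m) 1, ‖A y‖ₑ ^ (2 : ℝ)
        ≤ ∫⁻ y in ball (0 : E m) 1, ENNReal.ofReal (4 * (min 1 |r|) ^ 2) :=
          setLIntegral_mono' measurableSet_ball hAb
      _ = _ := by
          rw [setLIntegral_const, hV, measureReal_def, ENNReal.ofReal_toReal ball_fin]
  calc ENNReal.ofReal C1 * ∫⁻ y in ball (0 : E m) 1, ‖A y‖ₑ ^ (2 : ℝ)
      ≤ ENNReal.ofReal C1 * (ENNReal.ofReal (4 * (min 1 |r|) ^ 2) * ENNReal.ofReal V) := by gcongr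
    _ = _ := by
        rw [← ENNReal.ofReal_mul (by positivity), ← ENNReal.ofReal_mul hC1.le]
        congr 1
        ring

end Pool.Agent.H72.Co
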