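import Mathlib
import Pool.Agent.H72.Co.C5
set_option autoImplicit false

/-! Odd densities: estimates in an arbitrary direction. -/

open MeasureTheory Set Metric
open scoped ENNReal RealInnerProductSpace

namespace Pool.Agent.H72.Co

open Pool.Agent.H789R2.FR (E sg T sg_finite sg_ae sg_inv)
open Pool.Agent.H438R2.BR (J J_mp J_inner)
open Pool.Agent.H438R2.BR.T10 (e0 e0_norm)
open Pool.Agent.H438R2.PD (P1 P2 P1_meas P2_meas T_meas' T_le T_comp)
open Pool.Agent.TH335.RF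

variable {n m : ℕ}

theorem T_le_sph (g : E n → ℂ) (hM : ∀ w, ‖w‖ = 1 → ‖g w‖ ≤ 1) (x : E n) :
    ‖T g x‖ ≤ (sg n).real univ := by
  have : IsFiniteMeasure (sg n) := sg_finite _
  unfold T
  have h := norm_integral_le_of_norm_le_const (μ := sg n) (C := 1)
    (f := fun w => Complex.exp (-((⟪x, w⟫ : ℝ) : ℂ) * Complex.I) * g w) (by
      filter_upwards [sg_ae n] with w hw
      rw [norm_mul, Pool.Agent.H438R2.PD.exp_norm, one_mul]
      exact hM w hw)
  rwa [one_mul] at h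

theorem even_lint (f : ℝ → ℝ≥0∞) (hf : Measurable f) (he : ∀ r, f (-r) = f r) :
    ∫⁻ r, f r = 2 * ∫⁻ r in Ioi (0 : ℝ), f r := by
  have h1 : ∫⁻ r in Iio (0 : ℝ), f r = ∫⁻ r in Ioi (0 : ℝ), f r := by
    have hmp := Measure.measurePreserving_neg (volume : Measure ℝ)
    have h2 := hmp.setLIntegral_comp_preimage (s := Iio (0 : ℝ)) measurableSet_Iio hf
    have h3 : (Neg.neg ⁻¹' Iio (0 : ℝ)) = Ioi (0 : ℝ) := by
      ext r
      simp
    rw [h3] at h2
    rw [← h2]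
    refine lintegral_congr fun r => ?_
    rw [he]
  have h4 : ∫⁻ r, f r = (∫⁻ r in Ioi (0 : ℝ), f r) + ∫⁻ r in (Ioi (0 : ℝ))ᶜ, f r :=
    (lintegral_add_compl f measurableSet_Ioi).symm
  rw [h4, compl_Ioi, setLIntegral_congr (Iio_ae_eq_Iic (a := (0 : ℝ))).symm, h1, two_mul]

theorem T_even (hm : 1 ≤ m) {v : E (1 + m) → ℂ} (hv : Measurable v)
    (hb : ∀ z, ‖z‖ = 1 → ‖v z‖ ≤ |⟪ef m, z⟫|) (hodd : ∀ z, v (rf (ef m) z) = -v z)
    (r : ℝ) (y : E m) : ‖T v (J ((-r) • e0) y)‖ₑ = ‖T v (J (r • e0) y)‖ₑ := by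
  rw [T_odd hm hv hb hodd, T_odd hm hv hb hodd, neg_neg, ← enorm_neg, neg_sub]

theorem slice_meas {v : E (1 + m) → ℂ} (hv : Measurable v) (p : ℝ) :
    Measurable fun r : ℝ => ∫⁻ y : E m, ‖T v (J (r • e0) y)‖ₑ ^ p := by
  have h1 : Measurable fun p' : ℝ × E m => ‖T v (J (p'.1 • e0) p'.2)‖ₑ ^ p := by
    have h2 : Measurable fun p : E 1 × E m => J p.1 p.2 := (J_mp 1 m).measurable
    have h3 : Measurable fun p : ℝ × E m => ((p.1 • e0, p.2) : E 1 × E m) :=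
      (measurable_fst.smul_const e0).prodMk measurable_snd
    exact ((T_meas' v hv).comp (h2.comp h3)).enorm.pow_const p
  exact h1.lintegral_prod_right'

/-- **the `L^P` estimate** -/
theorem odd_LP (hm : 1 ≤ m) (P : ℝ) (hP : 2 < P) (hyp : Hyp 3 m P) (δ : ℝ) (hδ : 0 < δ) :
    ∃ C : ℝ, 0 < C ∧ ∀ (v : E (1 + m) → ℂ), Measurable v →
    (∀ z, ‖z‖ = 1 → ‖v z‖ ≤ |⟪ef m, z⟫|) → (∀ z, v (rf (ef m) z) = -v z) →
    ∫⁻ r : ℝ, ENNReal.ofReal ((1 + |r|) ^ (-δ)) * ∫⁻ y, ‖T v (J (r • e0) y)‖ₑ ^ P ≤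
      ENNReal.ofReal C := by
  obtain ⟨C1, hC1, h1⟩ := odd_L2 hm
  obtain ⟨C2, hC2, h2⟩ := hyp δ hδ
  set S : ℝ := (sg (1 + m)).real univ with hS
  have hS0 : 0 < S := Pool.Agent.H438R2.BR.T7.sg_pos (by omega)
  refine ⟨2 * (S ^ (P - 2) * C1 + 3 ^ P * (C2 + C2)), by positivity, fun v hv hb hodd => ?_⟩
  have hFm := Fv_meas hv
  have hF := Fv_le hb
  set H : ℝ → ℝ≥0∞ := fun r => ∫⁻ y, ‖T v (J (r • e0) y)‖ₑ ^ P with hH
  have hHm : Measurable H := slice_meas hv P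
  have hHe : ∀ r, H (-r) = H r := by
    intro r
    simp only [hH]
    refine lintegral_congr fun y => ?_
    rw [T_even hm hv hb hodd]
  have hwm : Measurable fun r : ℝ => ENNReal.ofReal ((1 + |r|) ^ (-δ)) := by fun_prop
  have hb1 : ∀ z, ‖z‖ = 1 → ‖v z‖ ≤ 1 := by
    intro z hz
    refine (hb z hz).trans ?_
    have := abs_real_inner_le_norm (ef m) z
    rwa [ef_norm, hz, one_mul] at this
  have hfe := even_lint (fun r => ENNReal.ofReal ((1 + |r|) ^ (-δ)) * H r) (hwm.mul hHm)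
    (fun r => by simp only [abs_neg, hHe])
  have s1 : ∫⁻ r in Ioc (0 : ℝ) 1, ENNReal.ofReal ((1 + |r|) ^ (-δ)) * H r ≤
      ENNReal.ofReal (S ^ (P - 2) * C1) := by
    calc ∫⁻ r in Ioc (0 : ℝ) 1, ENNReal.ofReal ((1 + |r|) ^ (-δ)) * H r
        ≤ ∫⁻ r in Ioc (0 : ℝ) 1, ENNReal.ofReal (S ^ (P - 2) * C1) := by
          refine setLIntegral_mono' measurableSet_Ioc fun r hr => ?_
          have hle : ENNReal.ofReal ((1 + |r|) ^ (-δ)) ≤ 1 := by
            rw [ENNReal.ofReal_le_one]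
            apply Real.rpow_le_one_of_one_le_of_nonpos
            · linarith [abs_nonneg r]
            · linarith
          have h5 : H r ≤ ENNReal.ofReal (S ^ (P - 2)) * ENNReal.ofReal C1 := by
            calc H r ≤ ∫⁻ y, ENNReal.ofReal (S ^ (P - 2)) * ‖T v (J (r • e0) y)‖ₑ ^ (2 : ℝ) := by
                  simp only [hH]
                  refine lintegral_mono fun y => ?_
                  have h6 : ‖T v (J (r • e0) y)‖ₑ ^ P =
                      ‖T v (J (r • e0) y)‖ₑ ^ (P - 2) * ‖T v (J (r • e0) y)‖ₑ ^ (2 : ℝ) := by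
                    rw [← ENNReal.rpow_add_of_nonneg _ _ (by linarith) (by norm_num)]
                    congr 1
                    ring
                  simp only
                  rw [h6]
                  gcongr
                  rw [← ENNReal.ofReal_rpow_of_nonneg hS0.le (by linarith)]
                  refine ENNReal.rpow_le_rpow ?_ (by linarith)
                  rw [← ofReal_norm]
                  exact ENNReal.ofReal_le_ofReal (T_le_sph v hb1 _)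
              _ = ENNReal.ofReal (S ^ (P - 2)) * ∫⁻ y, ‖T v (J (r • e0) y)‖ₑ ^ (2 : ℝ) := by
                  rw [lintegral_const_mul' _ _ ENNReal.ofReal_ne_top]
              _ ≤ _ := by
                  gcongr
                  refine (h1 v hv hb hodd r).trans ?_
                  apply ENNReal.ofReal_le_ofReal
                  have h7 : (min 1 |r|) ^ 2 ≤ 1 := by
                    have h8 : min 1 |r| ≤ 1 := min_le_left _ _
                    have h9 : 0 ≤ min 1 |r| := by positivity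
                    nlinarith
                  nlinarith
          calc ENNReal.ofReal ((1 + |r|) ^ (-δ)) * H r ≤ 1 * (ENNReal.ofReal (S ^ (P - 2)) *
                ENNReal.ofReal C1) := mul_le_mul' hle h5
            _ = _ := by rw [one_mul, ← ENNReal.ofReal_mul (by positivity)]
      _ = _ := by
          rw [setLIntegral_const, Real.volume_Ioc]
          simp
  have s2 : ∫⁻ r in Ioi (1 : ℝ), ENNReal.ofReal ((1 + |r|) ^ (-δ)) * H r ≤
      ENNReal.ofReal (3 ^ P * (C2 + C2)) := by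
    have g1 := h2 (Fv v) hFm hF 1 (Or.inl rfl)
    have g2 := h2 (Fv v) hFm hF (-1) (Or.inr rfl)
    have mG : ∀ s : ℝ, Measurable fun r : ℝ => ∫⁻ y : E m, ‖Gf 3 (Fv v) (s * r) y‖ₑ ^ P := by
      intro s
      have hG : Measurable fun r : ℝ => ∫⁻ y : E m, ‖Gf 3 (Fv v) r y‖ₑ ^ P :=
        ((Gf_meas 3 (Fv v) hFm).enorm.pow_const P).lintegral_prod_right'
      exact hG.comp (measurable_const_mul s)
    calc ∫⁻ r in Ioi (1 : ℝ), ENNReal.ofReal ((1 + |r|) ^ (-δ)) * H r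
        ≤ ∫⁻ r in Ioi (1 : ℝ), (3 ^ P * (ENNReal.ofReal (r ^ (-δ)) *
            ∫⁻ y : E m, ‖Gf 3 (Fv v) (1 * r) y‖ₑ ^ P) + 3 ^ P * (ENNReal.ofReal (r ^ (-δ)) *
            ∫⁻ y : E m, ‖Gf 3 (Fv v) (-1 * r) y‖ₑ ^ P)) := by
          refine setLIntegral_mono' measurableSet_Ioi fun r hr => ?_
          have hr1 : (1 : ℝ) < r := hr
          have hle : ENNReal.ofReal ((1 + |r|) ^ (-δ)) ≤ ENNReal.ofReal (r ^ (-δ)) := by
            apply ENNReal.ofReal_le_ofReal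
            apply Real.rpow_le_rpow_of_nonpos (by linarith) _ (by linarith)
            rw [abs_of_pos (by linarith)]
            linarith
          have hH2 : H r ≤ 3 ^ P * ((∫⁻ y : E m, ‖Gf 3 (Fv v) (1 * r) y‖ₑ ^ P) +
              ∫⁻ y : E m, ‖Gf 3 (Fv v) (-1 * r) y‖ₑ ^ P) := by
            simp only [hH]
            have mg : Measurable fun y : E m => ‖Gf 3 (Fv v) (1 * r) y‖ₑ ^ P :=
              ((Gf_meas 3 (Fv v) hFm).comp measurable_prodMk_left).enorm.pow_const P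
            rw [← lintegral_add_left mg, ← lintegral_const_mul' _ _
              (ENNReal.rpow_ne_top_of_nonneg (by linarith) (by norm_num))]
            refine lintegral_mono fun y => ?_
            simp only
            rw [T_odd hm hv hb hodd, one_mul, neg_one_mul]
            have h3 := three ‖Gf 3 (Fv v) r y‖ₑ ‖Gf 3 (Fv v) (-r) y‖ₑ 0 P (by linarith)
            rw [add_zero, ENNReal.zero_rpow_of_pos (by linarith), add_zero] at h3
            refine le_trans ?_ h3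
            exact ENNReal.rpow_le_rpow (enorm_sub_le) (by linarith)
          calc ENNReal.ofReal ((1 + |r|) ^ (-δ)) * H r ≤ ENNReal.ofReal (r ^ (-δ)) *
                (3 ^ P * ((∫⁻ y : E m, ‖Gf 3 (Fv v) (1 * r) y‖ₑ ^ P) +
                ∫⁻ y : E m, ‖Gf 3 (Fv v) (-1 * r) y‖ₑ ^ P)) := mul_le_mul' hle hH2
            _ = _ := by ring
      _ = 3 ^ P * (∫⁻ r in Ioi (1 : ℝ), ENNReal.ofReal (r ^ (-δ)) *
            ∫⁻ y : E m, ‖Gf 3 (Fv v) (1 * r) y‖ₑ ^ P) + 3 ^ P * (∫⁻ r in Ioi (1 : ℝ),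
            ENNReal.ofReal (r ^ (-δ)) * ∫⁻ y : E m, ‖Gf 3 (Fv v) (-1 * r) y‖ₑ ^ P) := by
          have h3P : (3 : ℝ≥0∞) ^ P ≠ ⊤ := ENNReal.rpow_ne_top_of_nonneg (by linarith) (by norm_num)
          have mw : Measurable fun r : ℝ => ENNReal.ofReal (r ^ (-δ)) := by fun_prop
          have mm : Measurable fun r : ℝ => (3 : ℝ≥0∞) ^ P * (ENNReal.ofReal (r ^ (-δ)) *
              ∫⁻ y : E m, ‖Gf 3 (Fv v) (1 * r) y‖ₑ ^ P) := (mw.mul (mG 1)).const_mul _
          rw [lintegral_add_left mm, lintegral_const_mul' _ _ h3P,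
            lintegral_const_mul' _ _ h3P]
      _ ≤ 3 ^ P * ENNReal.ofReal C2 + 3 ^ P * ENNReal.ofReal C2 := by gcongr
      _ = _ := by
          rw [← mul_add, ← ENNReal.ofReal_add hC2.le hC2.le, ENNReal.ofReal_mul (by positivity)]
          congr 1
          rw [← ENNReal.ofReal_rpow_of_nonneg (by norm_num) (by linarith)]
          norm_num
  have s3 : ∫⁻ r in Ioi (0 : ℝ), ENNReal.ofReal ((1 + |r|) ^ (-δ)) * H r ≤
      ENNReal.ofReal (S ^ (P - 2) * C1) + ENNReal.ofReal (3 ^ P * (C2 + C2)) := by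
    rw [← Ioc_union_Ioi_eq_Ioi (zero_le_one (α := ℝ))]
    exact (lintegral_union_le _ _ _).trans (add_le_add s1 s2)
  calc ∫⁻ r : ℝ, ENNReal.ofReal ((1 + |r|) ^ (-δ)) * H r
      = 2 * ∫⁻ r in Ioi (0 : ℝ), ENNReal.ofReal ((1 + |r|) ^ (-δ)) * H r := hfe
    _ ≤ 2 * (ENNReal.ofReal (S ^ (P - 2) * C1) + ENNReal.ofReal (3 ^ P * (C2 + C2))) := by
        gcongr
    _ = _ := by
        rw [← ENNReal.ofReal_add (by positivity) (by positivity),
          ENNReal.ofReal_mul (p := 2) (by norm_num), ENNReal.ofReal_ofNat]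

/-- change of coordinates -/
theorem dir_eq (a : E (1 + m)) (ha : ‖a‖ = 1) (v : E (1 + m) → ℂ) (hv : Measurable v)
    (hb : ∀ z, ‖z‖ = 1 → ‖v z‖ ≤ |⟪a, z⟫|) (hodd : ∀ z, v (rf a z) = -v z) :
    ∃ v' : E (1 + m) → ℂ, Measurable v' ∧ (∀ z, ‖z‖ = 1 → ‖v' z‖ ≤ |⟪ef m, z⟫|) ∧
      (∀ z, v' (rf (ef m) z) = -v' z) ∧ ∀ (p : ℝ) (w : ℝ → ℝ≥0∞), Measurable w →
      ∫⁻ z, w ⟪a, z⟫ * ‖T v z‖ₑ ^ p = ∫⁻ r, w r * ∫⁻ y, ‖T v' (J (r • e0) y)‖ₑ ^ p := by
  set L : E (1 + m) ≃ₗᵢ[ℝ] E (1 + m) := (ℝ ∙ (a - ef m))ᗮ.reflection with hL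
  have hLa : L a = ef m := Submodule.reflection_sub (by rw [ha, ef_norm])
  have hin : ∀ z, (⟪a, L.symm z⟫ : ℝ) = ⟪ef m, z⟫ := by
    intro z
    rw [← hLa, ← L.inner_map_map a (L.symm z), L.apply_symm_apply]
  refine ⟨fun z => v (L.symm z), hv.comp L.symm.continuous.measurable, fun z hz => ?_,
    fun z => ?_, fun p w hw => ?_⟩
  · rw [← hin z]
    exact hb _ (by rw [L.symm.norm_map, hz])
  · have h1 : L.symm (rf (ef m) z) = rf a (L.symm z) := by
      unfold rf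
      rw [map_sub, map_smul, hin, ← hLa, L.symm_apply_apply]
    simp only
    rw [h1, hodd]
  · have hTm := T_meas' _ (hv.comp L.symm.continuous.measurable)
    have e1 : ∀ z, T v z = T (fun z => v (L.symm z)) (L z) := by
      intro z
      rw [← T_comp L (fun z => v (L.symm z)) z]
      simp only [L.symm_apply_apply]
    have e2 : ∀ z, (⟪a, z⟫ : ℝ) = ⟪ef m, L z⟫ := by
      intro z
      rw [← hin (L z), L.symm_apply_apply]
    have m1 : Measurable fun z : E (1 + m) => w ⟪ef m, z⟫ * ‖T (fun z => v (L.symm z)) z‖ₑ ^ p := by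
      have h3 : Measurable fun z : E (1 + m) => (⟪ef m, z⟫ : ℝ) := by fun_prop
      exact (hw.comp h3).mul (hTm.enorm.pow_const p)
    calc ∫⁻ z, w ⟪a, z⟫ * ‖T v z‖ₑ ^ p
        = ∫⁻ z, (fun z => w ⟪ef m, z⟫ * ‖T (fun z => v (L.symm z)) z‖ₑ ^ p) (L z) := by
          refine lintegral_congr fun z => ?_
          simp only
          rw [← e1, ← e2]
      _ = ∫⁻ z, w ⟪ef m, z⟫ * ‖T (fun z => v (L.symm z)) z‖ₑ ^ p :=
          L.measurePreserving.lintegral_comp m1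
      _ = ∫⁻ x : E 1, ∫⁻ y : E m, w ⟪ef m, J x y⟫ * ‖T (fun z => v (L.symm z)) (J x y)‖ₑ ^ p := by
          rw [← (J_mp 1 m).lintegral_comp m1, lintegral_prod]
          exact (m1.comp (J_mp 1 m).measurable).aemeasurable
      _ = ∫⁻ r : ℝ, ∫⁻ y : E m, w ⟪ef m, J (r • e0) y⟫ *
            ‖T (fun z => v (L.symm z)) (J (r • e0) y)‖ₑ ^ p := by
          have m2 : Measurable fun x : E 1 => ∫⁻ y : E m, w ⟪ef m, J x y⟫ *
              ‖T (fun z => v (L.symm z)) (J x y)‖ₑ ^ p :=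
            (m1.comp (J_mp 1 m).measurable).lintegral_prod_right'
          rw [← line_mp.lintegral_comp m2]
      _ = _ := by
          refine lintegral_congr fun r => ?_
          have m3 : Measurable fun y : E m => ‖T (fun z => v (L.symm z)) (J (r • e0) y)‖ₑ ^ p := by
            have h5 : Measurable fun y : E m => J (r • e0) y :=
              (J_mp 1 m).measurable.comp measurable_prodMk_left
            exact (hTm.comp h5).enorm.pow_const p
          rw [← lintegral_const_mul _ m3]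
          refine lintegral_congr fun y => ?_
          rw [ef_inner]

theorem dir_L2 (hm : 1 ≤ m) : ∃ C : ℝ, 0 < C ∧ ∀ (a : E (1 + m)), ‖a‖ = 1 →
    ∀ (v : E (1 + m) → ℂ), Measurable v → (∀ z, ‖z‖ = 1 → ‖v z‖ ≤ |⟪a, z⟫|) →
    (∀ z, v (rf a z) = -v z) → ∀ w : ℝ → ℝ≥0∞, Measurable w →
    ∫⁻ z, w ⟪a, z⟫ * ‖T v z‖ₑ ^ (2 : ℝ) ≤
      ENNReal.ofReal C * ∫⁻ r, w r * ENNReal.ofReal ((min 1 |r|) ^ 2) := by
  obtain ⟨C, hC, h⟩ := odd_L2 hm
  refine ⟨C, hC, fun a ha v hv hb hodd w hw => ?_⟩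
  obtain ⟨v', hv', hb', hodd', h'⟩ := dir_eq a ha v hv hb hodd
  rw [h' 2 w hw]
  calc ∫⁻ r, w r * ∫⁻ y, ‖T v' (J (r • e0) y)‖ₑ ^ (2 : ℝ)
      ≤ ∫⁻ r, ENNReal.ofReal C * (w r * ENNReal.ofReal ((min 1 |r|) ^ 2)) := by
        refine lintegral_mono fun r => ?_
        have h1 := h v' hv' hb' hodd' r
        rw [ENNReal.ofReal_mul hC.le] at h1
        calc w r * ∫⁻ y, ‖T v' (J (r • e0) y)‖ₑ ^ (2 : ℝ)
            ≤ w r * (ENNReal.ofReal C * ENNReal.ofReal ((min 1 |r|) ^ 2)) := by gcongr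
          _ = _ := by ring
    _ = _ := by rw [lintegral_const_mul' _ _ ENNReal.ofReal_ne_top]

theorem dir_LP (hm : 1 ≤ m) (P : ℝ) (hP : 2 < P) (hyp : Hyp 3 m P) (δ : ℝ) (hδ : 0 < δ) :
    ∃ C : ℝ, 0 < C ∧ ∀ (a : E (1 + m)), ‖a‖ = 1 →
    ∀ (v : E (1 + m) → ℂ), Measurable v → (∀ z, ‖z‖ = 1 → ‖v z‖ ≤ |⟪a, z⟫|) →
    (∀ z, v (rf a z) = -v z) →
    ∫⁻ z, ENNReal.ofReal ((1 + |⟪a, z⟫|) ^ (-δ)) * ‖T v z‖ₑ ^ P ≤ ENNReal.ofReal C := by
  obtain ⟨C, hC, h⟩ := odd_LP hm P hP hyp δ hδ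
  refine ⟨C, hC, fun a ha v hv hb hodd => ?_⟩
  obtain ⟨v', hv', hb', hodd', h'⟩ := dir_eq a ha v hv hb hodd
  rw [h' P (fun r => ENNReal.ofReal ((1 + |r|) ^ (-δ))) (by fun_prop)]
  exact h v' hv' hb' hodd'

end Pool.Agent.H72.Co
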