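import Mathlib
import Pool.Agent.H72.Co.C6
set_option autoImplicit false

/-! The weighted estimate for a density which is odd with respect to several reflections. -/

open MeasureTheory Set Metric
open scoped ENNReal RealInnerProductSpace

namespace Pool.Agent.H72.Co

open Pool.Agent.H789R2.FR (E sg T sg_finite sg_ae sg_inv)
open Pool.Agent.H438R2.PD (P1 P2 P1_meas P2_meas T_meas' T_le T_comp)
open Pool.Agent.TH335.RF

variable {n m : ℕ}

/-- the weight of one variable -/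
noncomputable def wg (b s r : ℝ) : ℝ≥0∞ := ENNReal.ofReal ((1 + |r|) ^ b) * ENNReal.ofReal |r| ^ (-s)

theorem wg_meas (b s : ℝ) : Measurable (wg b s) := by
  unfold wg
  fun_prop

theorem wint (b s : ℝ) (hb : 0 ≤ b) (h1 : 1 < s - b) (h3 : s < 3) : ∃ C : ℝ, 0 < C ∧
    ∫⁻ r, wg b s r * ENNReal.ofReal ((min 1 |r|) ^ 2) ≤ ENNReal.ofReal C := by
  refine ⟨2 * (2 ^ b * (1 / (3 - s)) + 2 ^ b * (1 / (s - b - 1))), ?_, ?_⟩
  · have : 0 < 3 - s := by linarith
    have : 0 < s - b - 1 := by linarith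
    positivity
  have hm : Measurable fun r : ℝ => wg b s r * ENNReal.ofReal ((min 1 |r|) ^ 2) := by
    have := wg_meas b s
    fun_prop
  rw [even_lint _ hm (fun r => by simp only [wg, abs_neg])]
  have s1 : ∫⁻ r in Ioc (0 : ℝ) 1, wg b s r * ENNReal.ofReal ((min 1 |r|) ^ 2) ≤
      ENNReal.ofReal (2 ^ b * (1 / (3 - s))) := by
    calc ∫⁻ r in Ioc (0 : ℝ) 1, wg b s r * ENNReal.ofReal ((min 1 |r|) ^ 2)
        ≤ ∫⁻ r in Ioc (0 : ℝ) 1, ENNReal.ofReal (2 ^ b) * ENNReal.ofReal (r ^ (2 - s)) := by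
          refine setLIntegral_mono' measurableSet_Ioc fun r hr => ?_
          have hr0 : 0 < r := hr.1
          unfold wg
          rw [abs_of_pos hr0, min_eq_right hr.2, ENNReal.ofReal_rpow_of_pos hr0, mul_assoc,
            ← ENNReal.ofReal_mul (by positivity)]
          refine mul_le_mul' (ENNReal.ofReal_le_ofReal ?_) (le_of_eq ?_)
          · apply Real.rpow_le_rpow (by linarith) (by linarith [hr.2]) hb
          · congr 1
            rw [← Real.rpow_natCast, ← Real.rpow_add hr0]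
            congr 1
            push_cast
            ring
      _ = ENNReal.ofReal (2 ^ b) * ENNReal.ofReal (1 / (3 - s)) := by
          rw [lintegral_const_mul' _ _ ENNReal.ofReal_ne_top]
          congr 1
          have hi : IntegrableOn (fun r : ℝ => r ^ (2 - s)) (Ioc 0 1) := by
            have := intervalIntegral.intervalIntegrable_rpow' (a := 0) (b := 1) (r := 2 - s)
              (by linarith)
            rwa [intervalIntegrable_iff_integrableOn_Ioc_of_le zero_le_one] at this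
          rw [← ofReal_integral_eq_lintegral_ofReal hi, ← intervalIntegral.integral_of_le zero_le_one,
            integral_rpow (Or.inl (by linarith))]
          · congr 1
            rw [Real.one_rpow, Real.zero_rpow (by linarith)]
            rw [show 2 - s + 1 = 3 - s by ring, sub_zero]
          · filter_upwards [ae_restrict_mem measurableSet_Ioc] with r hr
            have := hr.1
            positivity
      _ = _ := by rw [← ENNReal.ofReal_mul (by positivity)]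
  have s2 : ∫⁻ r in Ioi (1 : ℝ), wg b s r * ENNReal.ofReal ((min 1 |r|) ^ 2) ≤
      ENNReal.ofReal (2 ^ b * (1 / (s - b - 1))) := by
    calc ∫⁻ r in Ioi (1 : ℝ), wg b s r * ENNReal.ofReal ((min 1 |r|) ^ 2)
        ≤ ∫⁻ r in Ioi (1 : ℝ), ENNReal.ofReal (2 ^ b) * ENNReal.ofReal (r ^ (-(s - b))) := by
          refine setLIntegral_mono' measurableSet_Ioi fun r hr => ?_
          have hr1 : (1 : ℝ) < r := hr
          have hr0 : 0 < r := by linarith
          unfold wg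
          rw [abs_of_pos hr0, min_eq_left hr1.le, ENNReal.ofReal_rpow_of_pos hr0, one_pow,
            ENNReal.ofReal_one, mul_one]
          rw [← ENNReal.ofReal_mul (by positivity), ← ENNReal.ofReal_mul (by positivity)]
          apply ENNReal.ofReal_le_ofReal
          have h5 : (1 + r) ^ b ≤ (2 * r) ^ b := Real.rpow_le_rpow (by linarith) (by linarith) hb
          calc (1 + r) ^ b * r ^ (-s) ≤ (2 * r) ^ b * r ^ (-s) := by gcongr
            _ = _ := by
                rw [Real.mul_rpow (by norm_num) hr0.le, mul_assoc, ← Real.rpow_add hr0]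
                congr 2
                ring
      _ = _ := by
          rw [lintegral_const_mul' _ _ ENNReal.ofReal_ne_top, pow_int (s - b) h1,
            ← ENNReal.ofReal_mul (by positivity)]
  have s3 : ∫⁻ r in Ioi (0 : ℝ), wg b s r * ENNReal.ofReal ((min 1 |r|) ^ 2) ≤
      ENNReal.ofReal (2 ^ b * (1 / (3 - s))) + ENNReal.ofReal (2 ^ b * (1 / (s - b - 1))) := by
    rw [← Ioc_union_Ioi_eq_Ioi (zero_le_one (α := ℝ))]
    exact (lintegral_union_le _ _ _).trans (add_le_add s1 s2)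
  have p1 : 0 < 3 - s := by linarith
  have p2 : 0 < s - b - 1 := by linarith
  rw [← ENNReal.ofReal_add (by positivity) (by positivity)] at s3
  calc 2 * ∫⁻ r in Ioi (0 : ℝ), wg b s r * ENNReal.ofReal ((min 1 |r|) ^ 2)
      ≤ 2 * ENNReal.ofReal (2 ^ b * (1 / (3 - s)) + 2 ^ b * (1 / (s - b - 1))) := by gcongr
    _ = _ := by rw [ENNReal.ofReal_mul (p := 2) (by norm_num), ENNReal.ofReal_ofNat]

/-- **the weighted estimate** -/
theorem weighted0 (hm : 1 ≤ m) (P : ℝ) (hP : 2 < P) (hyp : Hyp 3 m P) {ι : Type} [Fintype ι]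
    [Nonempty ι] (a : ι → E (1 + m)) (ha : ∀ i, ‖a i‖ = 1) (q : ℝ) (hq : 2 < q)
    (hs1 : 1 - (q - 2) / (P - 2) < (Fintype.card ι : ℝ) * (q - 2))
    (hs3 : (Fintype.card ι : ℝ) * (q - 2) < 3 * (1 - (q - 2) / (P - 2))) :
    ∃ C : ℝ, 0 < C ∧ ∀ (v : E (1 + m) → ℂ), Measurable v →
    (∀ i z, ‖z‖ = 1 → ‖v z‖ ≤ |⟪a i, z⟫|) → (∀ i z, v (rf (a i) z) = -v z) →
    ∫⁻ z, ‖T v z‖ₑ ^ q * ∏ i, ENNReal.ofReal |⟪a i, z⟫| ^ (2 - q) ≤ ENNReal.ofReal C := by
  set N : ℝ := (Fintype.card ι : ℝ) with hN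
  have hN0 : 0 < N := by
    rw [hN]
    exact_mod_cast Fintype.card_pos
  set θ : ℝ := 1 - (q - 2) / (P - 2) with hθ
  have hP2 : 0 < P - 2 := by linarith
  have hq2 : 0 < q - 2 := by linarith
  have hθ0 : 0 < θ := by nlinarith [mul_pos hN0 hq2]
  have hθ1 : 0 < 1 - θ := by
    rw [hθ]
    have : 0 < (q - 2) / (P - 2) := by positivity
    linarith
  set s : ℝ := N * (q - 2) / θ with hs
  have hs1' : 1 < s := by
    rw [hs, lt_div_iff₀ hθ0, one_mul]
    exact hs1
  have hs3' : s < 3 := by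
    rw [hs, div_lt_iff₀ hθ0]
    exact hs3
  set b : ℝ := (s - 1) / 2 with hb
  have hb0 : 0 < b := by
    rw [hb]
    linarith
  set δ : ℝ := b * θ / (N * (1 - θ)) with hδ
  have hδ0 : 0 < δ := by positivity
  obtain ⟨C1, hC1, h1⟩ := dir_L2 hm
  obtain ⟨C2, hC2, h2⟩ := dir_LP hm P hP hyp δ hδ0
  obtain ⟨C3, hC3, h3⟩ := wint b s hb0.le (by rw [hb]; linarith) hs3'
  refine ⟨C2 ^ (1 - θ) * ∏ _i : ι, (C1 * C3) ^ (θ / N), by positivity, fun v hv hbd hodd => ?_⟩
  set i0 : ι := Classical.arbitrary ι with hi0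
  have hTm : Measurable fun z => ‖T v z‖ₑ := (T_meas' v hv).enorm
  have him : ∀ i, Measurable fun z : E (1 + m) => (⟪a i, z⟫ : ℝ) := fun i => by fun_prop
  set g : E (1 + m) → ℝ≥0∞ := fun z =>
    ENNReal.ofReal ((1 + |⟪a i0, z⟫|) ^ (-δ)) * ‖T v z‖ₑ ^ P with hg
  set f : ι → E (1 + m) → ℝ≥0∞ := fun i z => wg b s ⟪a i, z⟫ * ‖T v z‖ₑ ^ (2 : ℝ) with hf
  have hgm : Measurable g := by
    have h5 : Measurable fun z : E (1 + m) => ENNReal.ofReal ((1 + |⟪a i0, z⟫|) ^ (-δ)) := by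
      have := him i0
      fun_prop
    exact h5.mul (hTm.pow_const P)
  have hfm : ∀ i, Measurable (f i) := fun i =>
    ((wg_meas b s).comp (him i)).mul (hTm.pow_const 2)
  have hold := ENNReal.lintegral_mul_prod_norm_pow_le (μ := (volume : Measure (E (1 + m))))
    (Finset.univ : Finset ι) (g := g) (f := f) hgm.aemeasurable (fun i _ => (hfm i).aemeasurable)
    (1 - θ) (p := fun _ => θ / N) (by
      rw [Finset.sum_const, Finset.card_univ, nsmul_eq_mul, ← hN]
      field_simp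
      ring) hθ1.le (fun i _ => by positivity)
  have hbracket : ∀ z : E (1 + m), (1 : ℝ≥0∞) ≤
      ENNReal.ofReal ((1 + |⟪a i0, z⟫|) ^ (-δ)) ^ (1 - θ) *
      ∏ i, ENNReal.ofReal ((1 + |⟪a i, z⟫|) ^ b) ^ (θ / N) := by
    intro z
    have h6 : ∀ i, (1 : ℝ) ≤ ((1 + |⟪a i, z⟫|) ^ b) ^ (θ / N) := by
      intro i
      apply Real.one_le_rpow _ (by positivity)
      apply Real.one_le_rpow _ hb0.le
      linarith [abs_nonneg (⟪a i, z⟫ : ℝ)]
    have h7 : ∀ i, ENNReal.ofReal ((1 + |⟪a i, z⟫|) ^ b) ^ (θ / N) =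
        ENNReal.ofReal (((1 + |⟪a i, z⟫|) ^ b) ^ (θ / N)) := fun i =>
      ENNReal.ofReal_rpow_of_nonneg (by positivity) (by positivity)
    rw [Finset.prod_congr rfl fun i _ => h7 i, ← ENNReal.ofReal_prod_of_nonneg
      (fun i _ => by positivity), ENNReal.ofReal_rpow_of_nonneg (by positivity) hθ1.le,
      ← ENNReal.ofReal_mul (by positivity), ENNReal.one_le_ofReal]
    have h8 : ((1 + |⟪a i0, z⟫|) ^ b) ^ (θ / N) ≤ ∏ i, ((1 + |⟪a i, z⟫|) ^ b) ^ (θ / N) := by
      classical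
      rw [← Finset.mul_prod_erase Finset.univ _ (Finset.mem_univ i0)]
      refine le_mul_of_one_le_right (by positivity) ?_
      exact Finset.one_le_prod fun i _ => h6 i
    have h9 : (0 : ℝ) < 1 + |⟪a i0, z⟫| := by positivity
    calc (1 : ℝ) = ((1 + |⟪a i0, z⟫|) ^ (-δ)) ^ (1 - θ) * ((1 + |⟪a i0, z⟫|) ^ b) ^ (θ / N) := by
          rw [← Real.rpow_mul h9.le, ← Real.rpow_mul h9.le, ← Real.rpow_add h9]
          have h10 : -δ * (1 - θ) + b * (θ / N) = 0 := by
            rw [hδ]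
            field_simp
            ring
          rw [h10, Real.rpow_zero]
      _ ≤ _ := by gcongr
  have hpt : ∀ z, ‖T v z‖ₑ ^ q * ∏ i, ENNReal.ofReal |⟪a i, z⟫| ^ (2 - q) ≤
      g z ^ (1 - θ) * ∏ i, f i z ^ (θ / N) := by
    intro z
    have e1 : g z ^ (1 - θ) = ENNReal.ofReal ((1 + |⟪a i0, z⟫|) ^ (-δ)) ^ (1 - θ) *
        ‖T v z‖ₑ ^ (P * (1 - θ)) := by
      simp only [hg]
      rw [ENNReal.mul_rpow_of_nonneg _ _ hθ1.le, ← ENNReal.rpow_mul]
    have e2 : ∏ i, f i z ^ (θ / N) = (∏ i, ENNReal.ofReal ((1 + |⟪a i, z⟫|) ^ b) ^ (θ / N)) *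
        (∏ i, ENNReal.ofReal |⟪a i, z⟫| ^ (2 - q)) * ‖T v z‖ₑ ^ (2 * θ) := by
      have h11 : ∀ i, f i z ^ (θ / N) = ENNReal.ofReal ((1 + |⟪a i, z⟫|) ^ b) ^ (θ / N) *
          ENNReal.ofReal |⟪a i, z⟫| ^ (2 - q) * ‖T v z‖ₑ ^ (2 * (θ / N)) := by
        intro i
        simp only [hf, wg]
        rw [ENNReal.mul_rpow_of_nonneg _ _ (by positivity),
          ENNReal.mul_rpow_of_nonneg _ _ (by positivity), ← ENNReal.rpow_mul, ← ENNReal.rpow_mul]
        congr 3
        rw [hs]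
        field_simp
        ring
      rw [Finset.prod_congr rfl fun i _ => h11 i, Finset.prod_mul_distrib, Finset.prod_mul_distrib]
      congr 1
      rw [Finset.prod_const, Finset.card_univ, ← ENNReal.rpow_natCast, ← ENNReal.rpow_mul, ← hN]
      congr 1
      field_simp
    have e3 : ‖T v z‖ₑ ^ q = ‖T v z‖ₑ ^ (P * (1 - θ)) * ‖T v z‖ₑ ^ (2 * θ) := by
      rw [← ENNReal.rpow_add_of_nonneg _ _ (by positivity) (by positivity)]
      congr 1
      rw [hθ]
      field_simp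
      ring
    rw [e1, e2, e3]
    calc ‖T v z‖ₑ ^ (P * (1 - θ)) * ‖T v z‖ₑ ^ (2 * θ) *
          ∏ i, ENNReal.ofReal |⟪a i, z⟫| ^ (2 - q)
        = 1 * (‖T v z‖ₑ ^ (P * (1 - θ)) * ‖T v z‖ₑ ^ (2 * θ) *
          ∏ i, ENNReal.ofReal |⟪a i, z⟫| ^ (2 - q)) := (one_mul _).symm
      _ ≤ (ENNReal.ofReal ((1 + |⟪a i0, z⟫|) ^ (-δ)) ^ (1 - θ) *
          ∏ i, ENNReal.ofReal ((1 + |⟪a i, z⟫|) ^ b) ^ (θ / N)) *
          (‖T v z‖ₑ ^ (P * (1 - θ)) * ‖T v z‖ₑ ^ (2 * θ) *
          ∏ i, ENNReal.ofReal |⟪a i, z⟫| ^ (2 - q)) := mul_le_mul' (hbracket z) le_rfl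
      _ = _ := by ring
  calc ∫⁻ z, ‖T v z‖ₑ ^ q * ∏ i, ENNReal.ofReal |⟪a i, z⟫| ^ (2 - q)
      ≤ ∫⁻ z, g z ^ (1 - θ) * ∏ i, f i z ^ (θ / N) := lintegral_mono hpt
    _ ≤ (∫⁻ z, g z) ^ (1 - θ) * ∏ i, (∫⁻ z, f i z) ^ (θ / N) := hold
    _ ≤ ENNReal.ofReal C2 ^ (1 - θ) * ∏ _i : ι, (ENNReal.ofReal (C1 * C3)) ^ (θ / N) := by
        refine mul_le_mul' (ENNReal.rpow_le_rpow (h2 _ (ha i0) v hv (hbd i0) (hodd i0)) hθ1.le)
          (Finset.prod_le_prod' fun i _ => ENNReal.rpow_le_rpow ?_ (by positivity))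
        refine (h1 _ (ha i) v hv (hbd i) (hodd i) _ (wg_meas b s)).trans ?_
        rw [ENNReal.ofReal_mul hC1.le]
        gcongr
    _ = _ := by
        rw [ENNReal.ofReal_mul (p := C2 ^ (1 - θ)) (by positivity),
          ENNReal.ofReal_rpow_of_nonneg hC2.le hθ1.le,
          ENNReal.ofReal_prod_of_nonneg (fun i _ => by positivity)]
        congr 1
        refine Finset.prod_congr rfl fun i _ => ?_
        rw [ENNReal.ofReal_rpow_of_nonneg (by positivity) (by positivity)]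

end Pool.Agent.H72.Co
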