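import Mathlib
import Pool.Agent.H72.Co.C4
import Pool.Agent.H72.Co.C7
set_option autoImplicit false

/-! The bound for the polynomials of a system. -/

open MeasureTheory Set Metric
open scoped ENNReal RealInnerProductSpace

namespace Pool.Agent.H72.Co

open Pool.Agent.H789R2.FR (E sg T sg_finite sg_ae sg_inv)
open Pool.Agent.H438R2.PD (P1 P2 P1_meas P2_meas T_meas' T_le T_comp)
open Pool.Agent.TH335.RF
open Pool.Agent.W5h55.SH

variable {n l d : ℕ}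

theorem rpow_anti {x y : ℝ≥0∞} (h : x ≤ y) {p : ℝ} (hp : p ≤ 0) : y ^ p ≤ x ^ p := by
  have e : ∀ t : ℝ≥0∞, t ^ p = (t ^ (-p))⁻¹ := fun t => by rw [← ENNReal.rpow_neg, neg_neg]
  rw [e x, e y, ENNReal.inv_le_inv]
  exact ENNReal.rpow_le_rpow h (by linarith)

theorem ev_ball (q : MvPolynomial (Fin n) ℂ) : ∃ B : ℝ, 0 ≤ B ∧ ∀ y : E n, ‖y‖ ≤ 1 → ‖ev q y‖ ≤ B := by
  obtain ⟨C, c, hC, hc', h⟩ := ev_bound q
  refine ⟨C * Real.exp c, by positivity, fun y hy => ?_⟩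
  refine (h y).trans ?_
  have : Real.exp (c * ‖y‖) ≤ Real.exp c := Real.exp_le_exp.2 (by nlinarith)
  exact mul_le_mul_of_nonneg_left this hC

theorem ev_lip (q : MvPolynomial (Fin n) ℂ) : ∃ K : ℝ, 0 ≤ K ∧ ∀ y z : E n, ‖y‖ ≤ 1 → ‖z‖ ≤ 1 →
    ‖ev q y - ev q z‖ ≤ K * ‖y - z‖ := by
  induction q using MvPolynomial.induction_on with
  | C a => exact ⟨0, le_rfl, fun y z _ _ => by simp [ev]⟩
  | add p q hp hq =>
    obtain ⟨K1, hK1, h1⟩ := hp
    obtain ⟨K2, hK2, h2⟩ := hq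
    refine ⟨K1 + K2, by positivity, fun y z hy hz => ?_⟩
    have e : ev (p + q) y - ev (p + q) z = (ev p y - ev p z) + (ev q y - ev q z) := by
      rw [ev_add, ev_add]; ring
    rw [e]
    refine (norm_add_le _ _).trans ?_
    have := h1 y z hy hz
    have := h2 y z hy hz
    linarith
  | mul_X p j hp =>
    obtain ⟨K, hK, h⟩ := hp
    obtain ⟨B, hB, hb⟩ := ev_ball p
    refine ⟨K + B, by positivity, fun y z hy hz => ?_⟩
    have e : ev (p * MvPolynomial.X j) y - ev (p * MvPolynomial.X j) z =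
        (ev p y - ev p z) * ((y j : ℝ) : ℂ) + ev p z * (((y - z) j : ℝ) : ℂ) := by
      rw [ev_mul, ev_mul, ev_X, ev_X, PiLp.sub_apply]
      push_cast
      ring
    rw [e]
    refine (norm_add_le _ _).trans ?_
    rw [norm_mul, norm_mul, Complex.norm_real, Complex.norm_real]
    have h1 : ‖y j‖ ≤ 1 := (PiLp.norm_apply_le y j).trans hy
    have h2 : ‖(y - z) j‖ ≤ ‖y - z‖ := PiLp.norm_apply_le (y - z) j
    have h3 := h y z hy hz
    have h4 := hb z hz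
    have h5 := norm_nonneg (y - z)
    calc ‖ev p y - ev p z‖ * ‖y j‖ + ‖ev p z‖ * ‖(y - z) j‖
        ≤ (K * ‖y - z‖) * 1 + B * ‖y - z‖ := by gcongr
      _ = _ := by ring

theorem norm_rf {a : E n} (ha : ‖a‖ = 1) (z : E n) : ‖rf a z‖ = ‖z‖ := by
  rw [← rf_eq ha]
  exact LinearIsometryEquiv.norm_map _ z

/-- an odd polynomial is small near the hyperplane -/
theorem odd_small (Pi : MvPolynomial (Fin n) ℂ) (a : E n) (ha : ‖a‖ = 1)
    (hodd : ∀ z, ev Pi (rf a z) = -ev Pi z) : ∃ M : ℝ, 0 < M ∧ ∀ z, ‖z‖ = 1 →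
    ‖ev Pi z‖ ≤ M * |⟪a, z⟫| := by
  obtain ⟨K, hK, h⟩ := ev_lip Pi
  refine ⟨K + 1, by positivity, fun z hz => ?_⟩
  have h1 := h z (rf a z) hz.le (by rw [norm_rf ha, hz])
  have h2 : ev Pi z - ev Pi (rf a z) = 2 * ev Pi z := by
    rw [hodd]; ring
  have h3 : ‖z - rf a z‖ = 2 * |⟪a, z⟫| := by
    unfold rf
    rw [sub_sub_cancel, norm_smul, ha, mul_one, Real.norm_eq_abs, abs_mul]
    norm_num
  rw [h2, h3, norm_mul] at h1
  norm_num at h1
  have := abs_nonneg (⟪a, z⟫ : ℝ)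
  nlinarith

variable {Pi : MvPolynomial (Fin l) ℂ}
  {W : ℕ → Submodule ℂ (MvPolynomial (Fin n) ℂ × MvPolynomial (Fin l) ℂ)}

/-- The reflections of a system. -/
structure Refl (d : ℕ) (Pi : MvPolynomial (Fin l) ℂ)
    (W : ℕ → Submodule ℂ (MvPolynomial (Fin n) ℂ × MvPolynomial (Fin l) ℂ))
    {ι : Type} [Fintype ι] (a : ι → E l) : Prop where
  card : Fintype.card ι = d
  unit : ∀ i, ‖a i‖ = 1
  low : ∃ c : ℝ, 0 < c ∧ ∀ z, c * ∏ i, |⟪a i, z⟫| ≤ ‖ev Pi z‖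
  odd : ∀ i z, ev Pi (rf (a i) z) = -ev Pi z
  inv : ∀ k, ∀ b ∈ W k, ∀ i z, ev b.2 (rf (a i) z) = ev b.2 z

theorem Refl.invV {ι : Type} [Fintype ι] {a : ι → E l} (hR : Refl d Pi W a)
    {b : MvPolynomial (Fin n) ℂ × MvPolynomial (Fin l) ℂ} (hb : b ∈ ⨆ k, W k) (i : ι) (z : E l) :
    ev b.2 (rf (a i) z) = ev b.2 z := by
  refine Submodule.iSup_induction W (motive := fun b => ev b.2 (rf (a i) z) = ev b.2 z) hb
    (fun k x hx => hR.inv k x hx i z) (by simp [ev]) (fun x y hx hy => ?_)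
  rw [Prod.snd_add, ev_add, ev_add, hx, hy]

/-- **the bound for the polynomials of a system** -/
theorem Sys.bound {m : ℕ} {Pi : MvPolynomial (Fin (1 + m)) ℂ}
    {W : ℕ → Submodule ℂ (MvPolynomial (Fin n) ℂ × MvPolynomial (Fin (1 + m)) ℂ)}
    (hS : Sys d Pi W) {ι : Type} [Fintype ι] {a : ι → E (1 + m)} (hR : Refl d Pi W a)
    (hd : 1 ≤ d) (P : ℝ) (hP : 2 < P) (hyp : Hyp 3 m P) (q0 : ℝ)
    (hq0 : 1 < (q0 - 2) * ((d : ℝ) + 1 / (P - 2))) :
    ∃ C : ℝ, 0 < C ∧ ∀ b ∈ ⨆ k, W k, (∀ w : E n, ‖w‖ = 1 → ‖ev b.1 w‖ ≤ 1) →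
      ∫⁻ x, ‖T (ev b.1) x‖ₑ ^ q0 ≤ ENNReal.ofReal C := by
  have hm : 1 ≤ m := by
    have := hS.two
    omega
  have hd' : (1 : ℝ) ≤ d := by exact_mod_cast hd
  have hP2 : 0 < P - 2 := by linarith
  set x : ℝ := 1 / (P - 2) with hx
  have hx0 : 0 < x := by positivity
  have hne : Nonempty ι := Fintype.card_pos_iff.1 (by rw [hR.card]; omega)
  -- choice of the exponent
  have k0 : 1 / ((d : ℝ) + x) < q0 - 2 := by
    rw [div_lt_iff₀ (by positivity)]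
    exact hq0
  have k1 : 1 / ((d : ℝ) + x) < 3 / ((d : ℝ) + 3 * x) := by
    rw [div_lt_div_iff₀ (by positivity) (by positivity)]
    nlinarith
  obtain ⟨κ, hκ1, hκ2⟩ := exists_between (lt_min k0 k1)
  have hκq : κ < q0 - 2 := lt_of_lt_of_le hκ2 (min_le_left _ _)
  have hκ3 : κ < 3 / ((d : ℝ) + 3 * x) := lt_of_lt_of_le hκ2 (min_le_right _ _)
  have hκ0 : 0 < κ := lt_trans (by positivity) hκ1
  set q : ℝ := 2 + κ with hq
  have hq2 : q - 2 = κ := by rw [hq]; ring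
  have hdiv : (q - 2) / (P - 2) = κ * x := by rw [hq2, hx]; ring
  have hs1 : 1 - (q - 2) / (P - 2) < (Fintype.card ι : ℝ) * (q - 2) := by
    rw [hdiv, hq2, hR.card]
    rw [div_lt_iff₀ (by positivity)] at hκ1
    nlinarith
  have hs3 : (Fintype.card ι : ℝ) * (q - 2) < 3 * (1 - (q - 2) / (P - 2)) := by
    rw [hdiv, hq2, hR.card]
    rw [lt_div_iff₀ (by positivity)] at hκ3
    nlinarith
  obtain ⟨C0, hC0, h0⟩ := weighted0 hm P hP hyp a hR.unit q (by linarith) hs1 hs3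
  obtain ⟨c, hc, hlow⟩ := hR.low
  have hMi : ∀ i, ∃ M : ℝ, 0 < M ∧ ∀ z, ‖z‖ = 1 → ‖ev Pi z‖ ≤ M * |⟪a i, z⟫| := fun i =>
    odd_small Pi (a i) (hR.unit i) (hR.odd i)
  choose Mi hMi0 hMi1 using hMi
  set M : ℝ := ∑ i, Mi i with hM
  have hMle : ∀ i, Mi i ≤ M := fun i =>
    Finset.single_le_sum (fun j _ => (hMi0 j).le) (Finset.mem_univ i)
  have hM0 : 0 < M := Finset.sum_pos (fun i _ => hMi0 i) Finset.univ_nonempty
  set A : ℝ := Kc n (1 + m) d ^ q * cr n Pi with hA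
  have hn1 : 1 ≤ n := by
    have := hS.dim
    omega
  have hA0 : 0 < A := by
    have := Kc_pos (n := n) (l := 1 + m) (d := d) hS.two hn1
    have := hS.cr_pos
    positivity
  set S : ℝ := (sg n).real univ with hSS
  have hS0 : 0 < S := by
    rw [hSS, ar_sg]
    exact ar_pos hn1
  refine ⟨S ^ (q0 - q) * (A⁻¹ * (M ^ q * c ^ (2 - q) * C0)), by positivity, fun b hb hb1 => ?_⟩
  -- the density in the small space
  set v1 : MvPolynomial (Fin (1 + m)) ℂ := ((M⁻¹ : ℝ) : ℂ) • (b.2 * Pi) with hv1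
  have hev : ∀ z, ev v1 z = ((M⁻¹ : ℝ) : ℂ) * ev (b.2 * Pi) z := by
    intro z
    rw [hv1, MvPolynomial.smul_eq_C_mul, ev_mul, ev_C]
  have hbd : ∀ i z, ‖z‖ = 1 → ‖ev v1 z‖ ≤ |⟪a i, z⟫| := by
    intro i z hz
    rw [hev, norm_mul, Complex.norm_real, Real.norm_of_nonneg (by positivity)]
    have g1 := hS.sup_le hb 1 zero_le_one hb1 z hz
    rw [one_mul] at g1
    have g2 := hMi1 i z hz
    have g3 := abs_nonneg (⟪a i, z⟫ : ℝ)
    have g4 : ‖ev (b.2 * Pi) z‖ ≤ M * |⟪a i, z⟫| := by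
      nlinarith [hMle i]
    calc M⁻¹ * ‖ev (b.2 * Pi) z‖ ≤ M⁻¹ * (M * |⟪a i, z⟫|) := by gcongr
      _ = _ := by rw [← mul_assoc, inv_mul_cancel₀ hM0.ne', one_mul]
  have hodd : ∀ i z, ev v1 (rf (a i) z) = -ev v1 z := by
    intro i z
    rw [hev, hev, ev_mul, ev_mul, hR.invV hb, hR.odd]
    ring
  have h1 := h0 (ev v1) (ev_cont v1).measurable hbd hodd
  -- comparison with the weight
  have hcmp : ∫⁻ z, ‖T (ev (b.2 * Pi)) z‖ₑ ^ q * ‖ev Pi z‖ₑ ^ (2 - q) ≤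
      ENNReal.ofReal (M ^ q * c ^ (2 - q) * C0) := by
    calc ∫⁻ z, ‖T (ev (b.2 * Pi)) z‖ₑ ^ q * ‖ev Pi z‖ₑ ^ (2 - q)
        ≤ ∫⁻ z, ENNReal.ofReal (M ^ q * c ^ (2 - q)) *
          (‖T (ev v1) z‖ₑ ^ q * ∏ i, ENNReal.ofReal |⟪a i, z⟫| ^ (2 - q)) := by
          refine lintegral_mono fun z => ?_
          have e1 : ‖T (ev (b.2 * Pi)) z‖ₑ ^ q = ENNReal.ofReal (M ^ q) * ‖T (ev v1) z‖ₑ ^ q := by
            rw [hv1, T_ev_smul, enorm_mul, ENNReal.mul_rpow_of_nonneg _ _ (by linarith),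
              ← mul_assoc]
            have : ENNReal.ofReal (M ^ q) * ‖((M⁻¹ : ℝ) : ℂ)‖ₑ ^ q = 1 := by
              rw [← ofReal_norm, Complex.norm_real, Real.norm_of_nonneg (by positivity),
                ENNReal.ofReal_rpow_of_nonneg (by positivity) (by linarith),
                ← ENNReal.ofReal_mul (by positivity), ← Real.mul_rpow hM0.le (by positivity),
                mul_inv_cancel₀ hM0.ne', Real.one_rpow, ENNReal.ofReal_one]
            rw [this, one_mul]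
          have e2 : ‖ev Pi z‖ₑ ^ (2 - q) ≤
              ENNReal.ofReal (c ^ (2 - q)) * ∏ i, ENNReal.ofReal |⟪a i, z⟫| ^ (2 - q) := by
            have e3 : ENNReal.ofReal c * ∏ i, ENNReal.ofReal |⟪a i, z⟫| ≤ ‖ev Pi z‖ₑ := by
              rw [← ENNReal.ofReal_prod_of_nonneg (fun i _ => abs_nonneg _),
                ← ENNReal.ofReal_mul hc.le, ← ofReal_norm]
              exact ENNReal.ofReal_le_ofReal (hlow z)
            have e4 : ‖ev Pi z‖ₑ ^ (2 - q) ≤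
                (ENNReal.ofReal c * ∏ i, ENNReal.ofReal |⟪a i, z⟫|) ^ (2 - q) :=
              rpow_anti e3 (by linarith)
            refine e4.trans (le_of_eq ?_)
            rw [ENNReal.mul_rpow_of_ne_top ENNReal.ofReal_ne_top
              (ENNReal.prod_ne_top fun i _ => ENNReal.ofReal_ne_top),
              ENNReal.prod_rpow_of_ne_top (fun i _ => ENNReal.ofReal_ne_top),
              ENNReal.ofReal_rpow_of_pos hc]
          calc ‖T (ev (b.2 * Pi)) z‖ₑ ^ q * ‖ev Pi z‖ₑ ^ (2 - q)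
              ≤ (ENNReal.ofReal (M ^ q) * ‖T (ev v1) z‖ₑ ^ q) *
                (ENNReal.ofReal (c ^ (2 - q)) * ∏ i, ENNReal.ofReal |⟪a i, z⟫| ^ (2 - q)) := by
                rw [e1]
                gcongr
            _ = _ := by
                rw [ENNReal.ofReal_mul (by positivity)]
                ring
      _ = ENNReal.ofReal (M ^ q * c ^ (2 - q)) *
          ∫⁻ z, ‖T (ev v1) z‖ₑ ^ q * ∏ i, ENNReal.ofReal |⟪a i, z⟫| ^ (2 - q) := by
          rw [lintegral_const_mul' _ _ ENNReal.ofReal_ne_top]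
      _ ≤ ENNReal.ofReal (M ^ q * c ^ (2 - q)) * ENNReal.ofReal C0 := by gcongr
      _ = _ := by rw [← ENNReal.ofReal_mul (by positivity)]
  have hq' : ∫⁻ x, ‖T (ev b.1) x‖ₑ ^ q ≤ ENNReal.ofReal (A⁻¹ * (M ^ q * c ^ (2 - q) * C0)) := by
    have h2 := hS.norm_eq hb q (by linarith)
    rw [← h2] at hcmp
    calc ∫⁻ x, ‖T (ev b.1) x‖ₑ ^ q
        = ENNReal.ofReal A⁻¹ * (ENNReal.ofReal A * ∫⁻ x, ‖T (ev b.1) x‖ₑ ^ q) := by
          rw [← mul_assoc, ← ENNReal.ofReal_mul (by positivity), inv_mul_cancel₀ hA0.ne',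
            ENNReal.ofReal_one, one_mul]
      _ ≤ ENNReal.ofReal A⁻¹ * ENNReal.ofReal (M ^ q * c ^ (2 - q) * C0) := by gcongr
      _ = _ := by rw [← ENNReal.ofReal_mul (by positivity)]
  calc ∫⁻ x, ‖T (ev b.1) x‖ₑ ^ q0
      ≤ ∫⁻ x, ENNReal.ofReal (S ^ (q0 - q)) * ‖T (ev b.1) x‖ₑ ^ q := by
        refine lintegral_mono fun x => ?_
        have e5 : ‖T (ev b.1) x‖ₑ ^ q0 = ‖T (ev b.1) x‖ₑ ^ (q0 - q) * ‖T (ev b.1) x‖ₑ ^ q := by
          rw [← ENNReal.rpow_add_of_nonneg _ _ (by linarith) (by linarith)]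
          congr 1
          ring
        simp only
        rw [e5]
        gcongr
        rw [← ENNReal.ofReal_rpow_of_nonneg hS0.le (by linarith)]
        refine ENNReal.rpow_le_rpow ?_ (by linarith)
        rw [← ofReal_norm]
        exact ENNReal.ofReal_le_ofReal (T_le_sph _ hb1 x)
    _ = ENNReal.ofReal (S ^ (q0 - q)) * ∫⁻ x, ‖T (ev b.1) x‖ₑ ^ q := by
        rw [lintegral_const_mul' _ _ ENNReal.ofReal_ne_top]
    _ ≤ ENNReal.ofReal (S ^ (q0 - q)) * ENNReal.ofReal (A⁻¹ * (M ^ q * c ^ (2 - q) * C0)) := by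
        gcongr
    _ = _ := by rw [← ENNReal.ofReal_mul (by positivity)]

end Pool.Agent.H72.Co
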