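import Mathlib
import Pool.Agent.H72.Co.C8
set_option autoImplicit false

/-! Approximation by the polynomials of a system, and the bound for all functions of the
invariants. -/

open MeasureTheory Set Metric
open scoped ENNReal RealInnerProductSpace BoundedContinuousFunction

namespace Pool.Agent.H72.Co

open Pool.Agent.H789R2.FR (E sg T sg_finite sg_ae sg_inv)
open Pool.Agent.TH335.RF
open Pool.Agent.W5h55.SH

variable {n l d : ℕ} {Pi : MvPolynomial (Fin l) ℂ}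
  {W : ℕ → Submodule ℂ (MvPolynomial (Fin n) ℂ × MvPolynomial (Fin l) ℂ)}

/-- the real continuous functions of `e` which are polynomials of the system on the sphere -/
noncomputable def Sys.alg (hS : Sys d Pi W) {κ : Type} (e : E n → κ → ℝ) :
    Subalgebra ℝ C(κ → ℝ, ℝ) where
  carrier := {φ | ∃ b ∈ ⨆ k, W k, ∀ w : E n, ‖w‖ = 1 → ev b.1 w = ((φ (e w) : ℝ) : ℂ)}
  mul_mem' := by
    rintro φ ψ ⟨a, ha, ha1⟩ ⟨b, hb, hb1⟩
    refine ⟨a * b, hS.mulV ha hb, fun w hw => ?_⟩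
    rw [Prod.fst_mul, ev_mul, ha1 w hw, hb1 w hw]
    simp
  add_mem' := by
    rintro φ ψ ⟨a, ha, ha1⟩ ⟨b, hb, hb1⟩
    refine ⟨a + b, Submodule.add_mem _ ha hb, fun w hw => ?_⟩
    rw [Prod.fst_add, ev_add, ha1 w hw, hb1 w hw]
    simp
  algebraMap_mem' := by
    intro r
    refine ⟨(r : ℂ) • 1, Submodule.smul_mem _ _ hS.oneV, fun w hw => ?_⟩
    rw [Prod.smul_fst, Prod.fst_one, MvPolynomial.smul_eq_C_mul, mul_one, ev_C]
    simp

theorem Sys.real_approx (hS : Sys d Pi W) {κ : Type} (e : E n → κ → ℝ) (he : Continuous e)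
    (hc : ∀ j, ∃ b ∈ ⨆ k, W k, ∀ w : E n, ‖w‖ = 1 → ev b.1 w = ((e w j : ℝ) : ℂ))
    (g : (κ → ℝ) → ℝ) (hg : Continuous g) (ε : ℝ) (hε : 0 < ε) :
    ∃ b ∈ ⨆ k, W k, ∀ w : E n, ‖w‖ = 1 → ‖ev b.1 w - ((g (e w) : ℝ) : ℂ)‖ ≤ ε := by
  have hsep : (hS.alg e).SeparatesPoints := by
    intro x y hxy
    obtain ⟨j, hj⟩ := Function.ne_iff.1 hxy
    refine ⟨fun z => z j, ⟨⟨fun z => z j, continuous_apply j⟩, ?_, rfl⟩, hj⟩
    obtain ⟨b, hb, hb1⟩ := hc j
    exact ⟨b, hb, hb1⟩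
  have hK : IsCompact (e '' sphere (0 : E n) 1) := (isCompact_sphere _ _).image he
  obtain ⟨φ, ⟨b, hb, hb1⟩, hφ⟩ :=
    ContinuousMap.exists_mem_subalgebra_near_continuous_of_isCompact_of_separatesPoints hsep
      ⟨g, hg⟩ hK hε
  refine ⟨b, hb, fun w hw => ?_⟩
  rw [hb1 w hw, ← Complex.ofReal_sub, Complex.norm_real]
  exact (hφ (e w) ⟨w, by simpa using hw, rfl⟩).le

theorem Sys.approx (hS : Sys d Pi W) {κ : Type} [Countable κ] (e : E n → κ → ℝ)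
    (he : Continuous e)
    (hc : ∀ j, ∃ b ∈ ⨆ k, W k, ∀ w : E n, ‖w‖ = 1 → ev b.1 w = ((e w j : ℝ) : ℂ))
    (Γ : (κ → ℝ) → ℂ) (hΓ : Measurable Γ) (hΓ1 : ∀ x, ‖Γ x‖ ≤ 1) (ε : ℝ) (hε : 0 < ε) :
    ∃ b ∈ ⨆ k, W k, (∀ w : E n, ‖w‖ = 1 → ‖ev b.1 w‖ ≤ 1) ∧
      ∫ w, ‖ev b.1 w - Γ (e w)‖ ∂(sg n) ≤ ε := by
  have f1 := sg_finite n
  set μ : Measure (κ → ℝ) := (sg n).map e with hμ
  have hem : Measurable e := he.measurable
  have f2 : IsFiniteMeasure μ := by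
    rw [hμ]
    exact Measure.isFiniteMeasure_map _ _
  set S : ℝ := (sg n).real univ with hSS
  have hS0 : 0 ≤ S := measureReal_nonneg
  have hΓi : Integrable Γ μ := Integrable.of_bound (C := 1) hΓ.aestronglyMeasurable
    (Filter.Eventually.of_forall hΓ1)
  obtain ⟨g, hg, hgi⟩ := hΓi.exists_boundedContinuous_integral_sub_le (ε := ε / 4) (by positivity)
  -- the retraction
  set R : ℂ → ℂ := fun z => ((max 1 ‖z‖)⁻¹ : ℝ) • z with hR
  have hRc : Continuous R := by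
    have h1 : Continuous fun z : ℂ => (max 1 ‖z‖)⁻¹ := by
      refine Continuous.inv₀ (by fun_prop) fun z => ?_
      have : 1 ≤ max 1 ‖z‖ := le_max_left _ _
      linarith
    exact h1.smul continuous_id
  have hR1 : ∀ z, ‖R z‖ ≤ 1 := by
    intro z
    have h1 : 0 < max 1 ‖z‖ := lt_of_lt_of_le one_pos (le_max_left _ _)
    simp only [hR]
    rw [norm_smul, Real.norm_of_nonneg (by positivity), inv_mul_le_iff₀ h1, mul_one]
    exact le_max_right _ _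
  have hR2 : ∀ z c : ℂ, ‖c‖ ≤ 1 → ‖R z - c‖ ≤ 2 * ‖z - c‖ := by
    intro z c hc1
    have h1 : 0 < max 1 ‖z‖ := lt_of_lt_of_le one_pos (le_max_left _ _)
    have h2 : ‖R z - z‖ ≤ ‖z - c‖ := by
      have e1 : R z - z = (((max 1 ‖z‖)⁻¹ - 1 : ℝ)) • z := by
        simp only [hR]
        rw [sub_smul, one_smul]
      rw [e1, norm_smul, Real.norm_eq_abs]
      rcases le_or_gt ‖z‖ 1 with h | h
      · rw [max_eq_left h]
        simp
      · rw [max_eq_right h.le]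
        have h3 : ‖z‖⁻¹ ≤ 1 := inv_le_one_of_one_le₀ h.le
        rw [abs_of_nonpos (by linarith)]
        have h4 : -(‖z‖⁻¹ - 1) * ‖z‖ = ‖z‖ - 1 := by
          have : ‖z‖ ≠ 0 := by linarith
          field_simp
          ring
        rw [h4]
        have h5 := norm_sub_norm_le z c
        linarith
    calc ‖R z - c‖ = ‖(R z - z) + (z - c)‖ := by congr 1; ring
      _ ≤ ‖R z - z‖ + ‖z - c‖ := norm_add_le _ _
      _ ≤ _ := by linarith
  -- uniform approximation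
  set ε' : ℝ := ε / (4 * (S + 1)) with hε'
  have hε'0 : 0 < ε' := by positivity
  obtain ⟨b1, hb1, hb1'⟩ := hS.real_approx e he hc (fun x => (R (g x)).re)
    (Complex.continuous_re.comp (hRc.comp g.continuous)) (ε' / 2) (by positivity)
  obtain ⟨b2, hb2, hb2'⟩ := hS.real_approx e he hc (fun x => (R (g x)).im)
    (Complex.continuous_im.comp (hRc.comp g.continuous)) (ε' / 2) (by positivity)
  have hsum : b1 + Complex.I • b2 ∈ ⨆ k, W k :=
    Submodule.add_mem _ hb1 (Submodule.smul_mem _ _ hb2)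
  have happ : ∀ w : E n, ‖w‖ = 1 → ‖ev (b1 + Complex.I • b2).1 w - R (g (e w))‖ ≤ ε' := by
    intro w hw
    have e1 : ev (b1 + Complex.I • b2).1 w - R (g (e w)) =
        (ev b1.1 w - (((R (g (e w))).re : ℝ) : ℂ)) +
        Complex.I * (ev b2.1 w - (((R (g (e w))).im : ℝ) : ℂ)) := by
      rw [Prod.fst_add, Prod.smul_fst, ev_add, MvPolynomial.smul_eq_C_mul, ev_mul, ev_C]
      conv_lhs => rw [← Complex.re_add_im (R (g (e w)))]
      ring
    rw [e1]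
    refine (norm_add_le _ _).trans ?_
    rw [norm_mul, Complex.norm_I, one_mul]
    have := hb1' w hw
    have := hb2' w hw
    linarith
  set b := (((1 + ε')⁻¹ : ℝ) : ℂ) • (b1 + Complex.I • b2) with hb
  have hp : 0 < 1 + ε' := by positivity
  have hevb : ∀ w : E n, ev b.1 w = (((1 + ε')⁻¹ : ℝ) : ℂ) * ev (b1 + Complex.I • b2).1 w := by
    intro w
    rw [hb, Prod.smul_fst, MvPolynomial.smul_eq_C_mul, ev_mul, ev_C]
  have hle : ∀ w : E n, ‖w‖ = 1 → ‖ev (b1 + Complex.I • b2).1 w‖ ≤ 1 + ε' := by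
    intro w hw
    have h1 := happ w hw
    have h2 := hR1 (g (e w))
    have h3 := norm_sub_norm_le (ev (b1 + Complex.I • b2).1 w) (R (g (e w)))
    linarith
  have hb1le : ∀ w : E n, ‖w‖ = 1 → ‖ev b.1 w‖ ≤ 1 := by
    intro w hw
    rw [hevb, norm_mul, Complex.norm_real, Real.norm_of_nonneg (by positivity),
      inv_mul_le_iff₀ hp, mul_one]
    exact hle w hw
  refine ⟨b, Submodule.smul_mem _ _ hsum, hb1le, ?_⟩
  have hpt : ∀ w : E n, ‖w‖ = 1 → ‖ev b.1 w - Γ (e w)‖ ≤ 2 * ε' + 2 * ‖Γ (e w) - g (e w)‖ := by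
    intro w hw
    have h1 : ‖ev b.1 w - ev (b1 + Complex.I • b2).1 w‖ ≤ ε' := by
      have e1 : ev b.1 w - ev (b1 + Complex.I • b2).1 w =
          (((1 + ε')⁻¹ - 1 : ℝ) : ℂ) * ev (b1 + Complex.I • b2).1 w := by
        rw [hevb]
        push_cast
        ring
      rw [e1, norm_mul, Complex.norm_real, Real.norm_eq_abs]
      have h2 : |(1 + ε')⁻¹ - 1| = ε' * (1 + ε')⁻¹ := by
        have h3 : (1 + ε')⁻¹ - 1 = -(ε' * (1 + ε')⁻¹) := by
          field_simp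
          ring
        rw [h3, abs_neg, abs_of_pos (by positivity)]
      rw [h2]
      calc ε' * (1 + ε')⁻¹ * ‖ev (b1 + Complex.I • b2).1 w‖
          ≤ ε' * (1 + ε')⁻¹ * (1 + ε') := by
            gcongr
            exact hle w hw
        _ = ε' := by rw [mul_assoc, inv_mul_cancel₀ hp.ne', mul_one]
    have h2 := happ w hw
    have h3 := hR2 (g (e w)) (Γ (e w)) (hΓ1 _)
    rw [norm_sub_rev (g (e w)) (Γ (e w))] at h3
    calc ‖ev b.1 w - Γ (e w)‖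
        = ‖(ev b.1 w - ev (b1 + Complex.I • b2).1 w) +
          ((ev (b1 + Complex.I • b2).1 w - R (g (e w))) + (R (g (e w)) - Γ (e w)))‖ := by
          congr 1; ring
      _ ≤ ‖ev b.1 w - ev (b1 + Complex.I • b2).1 w‖ +
          (‖ev (b1 + Complex.I • b2).1 w - R (g (e w))‖ + ‖R (g (e w)) - Γ (e w)‖) :=
          (norm_add_le _ _).trans (add_le_add le_rfl (norm_add_le _ _))
      _ ≤ _ := by linarith
  have hi1 : Integrable (fun w => ‖Γ (e w) - g (e w)‖) (sg n) := by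
    have h1 : Integrable (fun x => ‖Γ x - g x‖) μ := (hΓi.sub hgi).norm
    exact h1.comp_measurable hem
  have hi2 : ∫ w, ‖Γ (e w) - g (e w)‖ ∂(sg n) ≤ ε / 4 := by
    have h1 : ∫ x, ‖Γ x - g x‖ ∂μ = ∫ w, ‖Γ (e w) - g (e w)‖ ∂(sg n) := by
      rw [hμ, integral_map hem.aemeasurable]
      exact (hΓ.sub g.continuous.measurable).norm.aestronglyMeasurable
    rw [← h1]
    exact hg
  have hi3 : Integrable (fun w => ‖ev b.1 w - Γ (e w)‖) (sg n) := by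
    refine Integrable.norm (Integrable.sub (sg_int (ev_cont _)) ?_)
    exact Integrable.of_bound (C := 1) (hΓ.comp hem).aestronglyMeasurable
      (Filter.Eventually.of_forall fun w => hΓ1 _)
  calc ∫ w, ‖ev b.1 w - Γ (e w)‖ ∂(sg n)
      ≤ ∫ w, (2 * ε' + 2 * ‖Γ (e w) - g (e w)‖) ∂(sg n) := by
        refine integral_mono_ae hi3 ((integrable_const _).add (hi1.const_mul 2)) ?_
        filter_upwards [sg_ae n] with w hw
        exact hpt w hw
    _ = 2 * ε' * S + 2 * ∫ w, ‖Γ (e w) - g (e w)‖ ∂(sg n) := by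
        rw [integral_add (integrable_const _) (hi1.const_mul 2), integral_const, integral_const_mul,
          smul_eq_mul]
        ring
    _ ≤ 2 * ε' * S + 2 * (ε / 4) := by gcongr
    _ ≤ ε := by
        have h5 : ε' * S ≤ ε / 4 := by
          rw [hε', div_mul_eq_mul_div, div_le_iff₀ (by positivity)]
          nlinarith
        linarith

theorem T_diff {f g : E n → ℂ} (hf : Measurable f) (hg : Measurable g)
    (hf1 : ∀ w, ‖w‖ = 1 → ‖f w‖ ≤ 1) (hg1 : ∀ w, ‖w‖ = 1 → ‖g w‖ ≤ 1) (x : E n) :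
    ‖T f x - T g x‖ ≤ ∫ w, ‖f w - g w‖ ∂(sg n) := by
  unfold T
  rw [← integral_sub (ker_int hf 1 hf1 x) (ker_int hg 1 hg1 x)]
  refine (norm_integral_le_integral_norm _).trans (le_of_eq ?_)
  refine integral_congr_ae (Filter.Eventually.of_forall fun w => ?_)
  simp only
  rw [← mul_sub, norm_mul, Pool.Agent.H438R2.PD.exp_norm, one_mul]

/-- passing to the limit -/
theorem limit_bound (V : Set (MvPolynomial (Fin n) ℂ)) (q C : ℝ) (hq : 0 ≤ q)
    (hV : ∀ p ∈ V, (∀ w : E n, ‖w‖ = 1 → ‖ev p w‖ ≤ 1) → ∫⁻ x, ‖T (ev p) x‖ₑ ^ q ≤ ENNReal.ofReal C)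
    (f : E n → ℂ) (hf : Measurable f) (hf1 : ∀ w, ‖w‖ = 1 → ‖f w‖ ≤ 1)
    (happ : ∀ ε : ℝ, 0 < ε → ∃ p ∈ V, (∀ w : E n, ‖w‖ = 1 → ‖ev p w‖ ≤ 1) ∧
      ∫ w, ‖ev p w - f w‖ ∂(sg n) ≤ ε) :
    ∫⁻ x, ‖T f x‖ₑ ^ q ≤ ENNReal.ofReal C := by
  have h1 : ∀ j : ℕ, ∃ p ∈ V, (∀ w : E n, ‖w‖ = 1 → ‖ev p w‖ ≤ 1) ∧
      ∫ w, ‖ev p w - f w‖ ∂(sg n) ≤ 1 / ((j : ℝ) + 1) := fun j => happ _ (by positivity)
  choose p hp hp1 hp2 using h1
  have hlim : ∀ x, Filter.Tendsto (fun j => ‖T (ev (p j)) x‖ₑ ^ q) Filter.atTop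
      (nhds (‖T f x‖ₑ ^ q)) := by
    intro x
    have h2 : Filter.Tendsto (fun j => T (ev (p j)) x) Filter.atTop (nhds (T f x)) := by
      rw [tendsto_iff_norm_sub_tendsto_zero]
      refine squeeze_zero (fun j => norm_nonneg _) (fun j => ?_)
        (tendsto_one_div_add_atTop_nhds_zero_nat (𝕜 := ℝ))
      exact (T_diff (ev_cont _).measurable hf (hp1 j) hf1 x).trans (hp2 j)
    exact ((ENNReal.continuous_rpow_const (y := q)).tendsto _).comp
      ((continuous_enorm.tendsto _).comp h2)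
  have h3 : ∀ x, Filter.liminf (fun j => ‖T (ev (p j)) x‖ₑ ^ q) Filter.atTop = ‖T f x‖ₑ ^ q :=
    fun x => (hlim x).liminf_eq
  calc ∫⁻ x, ‖T f x‖ₑ ^ q
      = ∫⁻ x, Filter.liminf (fun j => ‖T (ev (p j)) x‖ₑ ^ q) Filter.atTop := by
        simp only [h3]
    _ ≤ Filter.liminf (fun j => ∫⁻ x, ‖T (ev (p j)) x‖ₑ ^ q) Filter.atTop :=
        lintegral_liminf_le fun j => (T_ev_cont _).measurable.enorm.pow_const q
    _ ≤ Filter.liminf (fun _ : ℕ => ENNReal.ofReal C) Filter.atTop := by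
        refine Filter.liminf_le_liminf (Filter.Eventually.of_forall fun j => ?_)
        exact hV (p j) (hp j) (hp1 j)
    _ = ENNReal.ofReal C := Filter.liminf_const _

/-- **The bound for all functions of the invariants.** -/
theorem Sys.full {m : ℕ} {Pi : MvPolynomial (Fin (1 + m)) ℂ}
    {W : ℕ → Submodule ℂ (MvPolynomial (Fin n) ℂ × MvPolynomial (Fin (1 + m)) ℂ)}
    (hS : Sys d Pi W) {ι : Type} [Fintype ι] {a : ι → E (1 + m)} (hR : Refl d Pi W a)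
    (hd : 1 ≤ d) (P : ℝ) (hP : 2 < P) (hyp : Hyp 3 m P) (q0 : ℝ)
    (hq0 : 1 < (q0 - 2) * ((d : ℝ) + 1 / (P - 2))) {κ : Type} [Countable κ] (e : E n → κ → ℝ)
    (he : Continuous e)
    (hc : ∀ j, ∃ b ∈ ⨆ k, W k, ∀ w : E n, ‖w‖ = 1 → ev b.1 w = ((e w j : ℝ) : ℂ)) :
    ∃ C : ℝ, 0 < C ∧ ∀ Γ : (κ → ℝ) → ℂ, Measurable Γ → (∀ x, ‖Γ x‖ ≤ 1) →
      ∫⁻ x, ‖T (fun w => Γ (e w)) x‖ₑ ^ q0 ≤ ENNReal.ofReal C := by
  obtain ⟨C, hC, h⟩ := hS.bound hR hd P hP hyp q0 hq0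
  have hq2 : 0 ≤ q0 := by
    by_contra hcon
    push Not at hcon
    have h1 : 0 < 1 / (P - 2) := by
      have : 0 < P - 2 := by linarith
      positivity
    have h2 : (0 : ℝ) ≤ d := Nat.cast_nonneg d
    nlinarith
  refine ⟨C, hC, fun Γ hΓ hΓ1 => ?_⟩
  refine limit_bound {p | ∃ b ∈ ⨆ k, W k, b.1 = p} q0 C hq2 ?_ _ (hΓ.comp he.measurable)
    (fun w _ => hΓ1 _) ?_
  · rintro p ⟨b, hb, rfl⟩ hb1
    exact h b hb hb1
  · intro ε hε
    obtain ⟨b, hb, hb1, hb2⟩ := hS.approx e he hc Γ hΓ hΓ1 ε hε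
    exact ⟨b.1, ⟨b, hb, rfl⟩, hb1, hb2⟩

end Pool.Agent.H72.Co
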